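import Pool.Agent.H4.Split.Defs
import Pool.Agent.H85.Fold3.Gram

/-!
# Project FOLD, vertex splits: the folding vectors of the vertex split
-/

set_option autoImplicit false

open Finset

namespace Pool.Agent.H4.Split

open Pool.Agent.H85.Fold2 Pool.Agent.H85.Fold3 Pool.Agent.H85.Fold4

private theorem new_dp {ι : Type} [Fintype ι] {m : ℕ} (c : ι → ℝ) (x : ι → Fin m → ℝ) :
    (∑ i, c i • x i) ⬝ᵥ (∑ j, c j • x j) = ∑ i, ∑ j, c i * c j * (x i ⬝ᵥ x j) := by
  rw [sum_dotProduct]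
  refine Finset.sum_congr rfl fun i _ => ?_
  rw [dotProduct_sum]
  refine Finset.sum_congr rfl fun j _ => ?_
  rw [smul_dotProduct, dotProduct_smul, smul_eq_mul, smul_eq_mul, mul_assoc]

/-- the old vertex -/
private def sg {V : Type} (x : V) : Option V → V
  | some v => v
  | none => x

/-- the sign of the displacement -/
private noncomputable def th {V : Type} [DecidableEq V] (x : V) : Option V → ℝ
  | some v => if v = x then 1 else 0
  | none => -1

/-- displaced vectors -/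
private noncomputable def dis {V : Type} [DecidableEq V] {n : ℕ} (p : V → Fin n → ℝ) (x : V) (ε : ℝ)
    (s : Fin n → ℝ) (o : Option V) : Fin n → ℝ := p (sg x o) + (ε * th x o) • s

private theorem dis_dp {V : Type} [DecidableEq V] {n : ℕ} (p : V → Fin n → ℝ) (x : V) (ε : ℝ)
    (s : Fin n → ℝ) (o o' : Option V) : dis p x ε s o ⬝ᵥ dis p x ε s o' =
      p (sg x o) ⬝ᵥ p (sg x o') + ε * th x o * (s ⬝ᵥ p (sg x o')) +
        ε * th x o' * (s ⬝ᵥ p (sg x o)) + ε ^ 2 * th x o * th x o' * (s ⬝ᵥ s) := by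
  unfold dis
  rw [add_dotProduct, dotProduct_add, dotProduct_add, smul_dotProduct, smul_dotProduct,
    dotProduct_smul, dotProduct_smul, dotProduct_comm (p (sg x o)) s]
  simp only [smul_eq_mul]
  ring

/-- the linear inequality for the quadratic form -/
private theorem new_quad {m : ℕ} (Z b : Fin m → ℝ) (g δ : ℝ) (hδ : 0 < δ) :
    min (1 / 2) (δ / (1 + 2 * (b ⬝ᵥ b))) * (Z ⬝ᵥ Z + g ^ 2) ≤
      (Z + g • b) ⬝ᵥ (Z + g • b) + g ^ 2 * δ := by
  have hb : 0 ≤ b ⬝ᵥ b := Finset.sum_nonneg fun i _ => mul_self_nonneg _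
  have hZ : 0 ≤ Z ⬝ᵥ Z := Finset.sum_nonneg fun i _ => mul_self_nonneg _
  set κ : ℝ := min (1 / 2) (δ / (1 + 2 * (b ⬝ᵥ b))) with hκ
  have hk1 : κ ≤ 1 / 2 := min_le_left _ _
  have hk2 : κ * (1 + 2 * (b ⬝ᵥ b)) ≤ δ := by
    have h1 : κ ≤ δ / (1 + 2 * (b ⬝ᵥ b)) := min_le_right _ _
    rwa [le_div_iff₀ (by linarith)] at h1
  have hk0 : 0 ≤ κ := le_min (by norm_num) (by positivity)
  -- the square `|(1 - κ) Z + g b|^2 ≥ 0`
  have h2 : 0 ≤ ((1 - κ) • Z + g • b) ⬝ᵥ ((1 - κ) • Z + g • b) :=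
    Finset.sum_nonneg fun i _ => mul_self_nonneg _
  have e1 : (Z + g • b) ⬝ᵥ (Z + g • b) = Z ⬝ᵥ Z + 2 * g * (Z ⬝ᵥ b) + g ^ 2 * (b ⬝ᵥ b) := by
    rw [add_dotProduct, dotProduct_add, dotProduct_add, smul_dotProduct, smul_dotProduct,
      dotProduct_smul, dotProduct_smul, dotProduct_comm b Z]
    simp only [smul_eq_mul]
    ring
  have e2 : ((1 - κ) • Z + g • b) ⬝ᵥ ((1 - κ) • Z + g • b) =
      (1 - κ) ^ 2 * (Z ⬝ᵥ Z) + 2 * (1 - κ) * g * (Z ⬝ᵥ b) + g ^ 2 * (b ⬝ᵥ b) := by
    rw [add_dotProduct, dotProduct_add, dotProduct_add, smul_dotProduct, smul_dotProduct,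
      smul_dotProduct, smul_dotProduct, dotProduct_smul, dotProduct_smul, dotProduct_smul,
      dotProduct_smul, dotProduct_comm b Z]
    simp only [smul_eq_mul]
    ring
  rw [e2] at h2
  rw [e1]
  -- multiply by `1 - κ > 0`
  have h3 : 0 < 1 - κ := by linarith
  have h4 : 0 ≤ (1 - κ) * (Z ⬝ᵥ Z + 2 * g * (Z ⬝ᵥ b) + g ^ 2 * (b ⬝ᵥ b) + g ^ 2 * δ -
      κ * (Z ⬝ᵥ Z + g ^ 2)) := by
    have h5 : 0 ≤ g ^ 2 * ((1 - κ) * (b ⬝ᵥ b) + (1 - κ) * δ - (1 - κ) * κ - b ⬝ᵥ b) := by
      apply mul_nonneg (sq_nonneg g)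
      have h6 : κ * (b ⬝ᵥ b) + (1 - κ) * κ ≤ (1 - κ) * δ := by
        have h7 : (1 - κ) * (κ * (1 + 2 * (b ⬝ᵥ b))) ≤ (1 - κ) * δ :=
          mul_le_mul_of_nonneg_left hk2 h3.le
        have h8 : κ * (b ⬝ᵥ b) ≤ (1 - κ) * (κ * (2 * (b ⬝ᵥ b))) := by
          have h9 : 0 ≤ κ * (b ⬝ᵥ b) := mul_nonneg hk0 hb
          nlinarith
        linarith
      linarith
    nlinarith
  have h10 := nonneg_of_mul_nonneg_right h4 h3
  linarith

private theorem new_prod {ι : Type} [Fintype ι] (c f g : ι → ℝ) :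
    ∑ i, ∑ j, c i * c j * (f i * g j) = (∑ i, c i * f i) * (∑ j, c j * g j) := by
  rw [Finset.sum_mul_sum]
  exact Finset.sum_congr rfl fun i _ => Finset.sum_congr rfl fun j _ => by ring

theorem split_fold {V : Type} [DecidableEq V] [Fintype V] {G : SimpleGraph V} {n m : ℕ}
    {p : V → Fin n → ℝ} {a : V → Fin m → ℝ} (hf : IsFoldR G p a) (ha : LinearIndependent ℝ a)
    (x : V) (A B : Set V) (hx : A ∪ B = G.neighborSet x) (s : Fin n → ℝ) (b : Fin m → ℝ)
    (hsb : b ⬝ᵥ b < s ⬝ᵥ s) (hsx : s ⬝ᵥ p x = b ⬝ᵥ a x)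
    (hC : ∀ c ∈ A ∩ B, s ⬝ᵥ p c = b ⬝ᵥ a c) (hA : ∀ w ∈ A \ B, b ⬝ᵥ a w < s ⬝ᵥ p w)
    (hB : ∀ w ∈ B \ A, s ⬝ᵥ p w < b ⬝ᵥ a w) :
    ∃ (m' : ℕ) (p' : Option V → Fin n → ℝ) (a' : Option V → Fin m' → ℝ),
      IsFoldR (vertexSplit G x A B) p' a' ∧ LinearIndependent ℝ a' := by
  classical
  obtain ⟨l, hl0, hl⟩ := gram_pos a ha
  obtain ⟨φ, hφ⟩ : ∃ φ : V → ℝ, φ = fun w => s ⬝ᵥ p w - b ⬝ᵥ a w := ⟨_, rfl⟩
  obtain ⟨ψ, hψ⟩ : ∃ ψ : V → ℝ, ψ = fun w => if G.Adj x w then |φ w| else 0 := ⟨_, rfl⟩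
  obtain ⟨δ, hδ⟩ : ∃ δ : ℝ, δ = s ⬝ᵥ s - b ⬝ᵥ b := ⟨_, rfl⟩
  have hδ0 : 0 < δ := by rw [hδ]; linarith
  have hφx : φ x = 0 := by rw [hφ]; simp only; linarith
  have hψx : ψ x = 0 := by rw [hψ]; simp
  have hψ0 : ∀ w, 0 ≤ ψ w := by
    intro w; rw [hψ]; simp only; split_ifs
    · exact abs_nonneg _
    · exact le_rfl
  have hAdjA : ∀ w ∈ A, G.Adj x w := fun w hw => by
    have : w ∈ A ∪ B := Or.inl hw
    rwa [hx] at this
  have hAdjB : ∀ w ∈ B, G.Adj x w := fun w hw => by
    have : w ∈ A ∪ B := Or.inr hw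
    rwa [hx] at this
  have hAdj : ∀ w, G.Adj x w → w ∈ A ∨ w ∈ B := fun w hw => by
    have : w ∈ G.neighborSet x := hw
    rw [← hx] at this
    exact this
  have hφA : ∀ w ∈ A, 0 ≤ φ w := by
    intro w hw
    rw [hφ]; simp only
    by_cases h : w ∈ B
    · rw [hC w ⟨hw, h⟩, sub_self]
    · linarith [hA w ⟨hw, h⟩]
  have hφB : ∀ w ∈ B, φ w ≤ 0 := by
    intro w hw
    rw [hφ]; simp only
    by_cases h : w ∈ A
    · rw [hC w ⟨h, hw⟩, sub_self]
    · linarith [hB w ⟨hw, h⟩]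
  have hψA : ∀ w ∈ A, ψ w = φ w := by
    intro w hw
    rw [hψ]; simp only
    rw [if_pos (hAdjA w hw), abs_of_nonneg (hφA w hw)]
  have hψB : ∀ w ∈ B, ψ w = -φ w := by
    intro w hw
    rw [hψ]; simp only
    rw [if_pos (hAdjB w hw), abs_of_nonpos (hφB w hw)]
  have hψN : ∀ w, ¬ G.Adj x w → ψ w = 0 := by
    intro w hw
    rw [hψ]; simp only
    rw [if_neg hw]
  obtain ⟨κ, hκ⟩ : ∃ κ : ℝ, κ = min (1 / 2) (δ / (1 + 2 * (b ⬝ᵥ b))) := ⟨_, rfl⟩
  have hb0 : 0 ≤ b ⬝ᵥ b := Finset.sum_nonneg fun i _ => mul_self_nonneg _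
  have hκ0 : 0 < κ := by rw [hκ]; exact lt_min (by norm_num) (by positivity)
  obtain ⟨Ψ, hΨ⟩ : ∃ Ψ : ℝ, Ψ = ∑ w, ψ w := ⟨_, rfl⟩
  have hΨ0 : 0 ≤ Ψ := by rw [hΨ]; exact Finset.sum_nonneg fun w _ => hψ0 w
  -- the choice of `ε`
  obtain ⟨ε, hε0, hε1, hε2⟩ : ∃ ε : ℝ, 0 < ε ∧ ε * (2 * Ψ) < κ * l ∧
      ∀ w, w ≠ x → ¬ G.Adj x w → ε * |φ w| < a x ⬝ᵥ a w - p x ⬝ᵥ p w := by
    have h1 : ∀ᶠ ε : ℝ in nhdsWithin 0 (Set.Ioi 0), ε * (2 * Ψ) < κ * l := by
      have hcont : Continuous fun ε : ℝ => ε * (2 * Ψ) := by fun_prop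
      have h2 : (fun ε : ℝ => ε * (2 * Ψ)) 0 < κ * l := by
        simp only [zero_mul]; positivity
      exact (hcont.continuousAt.eventually (gt_mem_nhds h2)).filter_mono nhdsWithin_le_nhds
    have h3 : ∀ᶠ ε : ℝ in nhdsWithin 0 (Set.Ioi 0), ∀ w, w ≠ x → ¬ G.Adj x w →
        ε * |φ w| < a x ⬝ᵥ a w - p x ⬝ᵥ p w := by
      rw [Filter.eventually_all]
      intro w
      by_cases hw : w ≠ x ∧ ¬ G.Adj x w
      · have hcont : Continuous fun ε : ℝ => ε * |φ w| := by fun_prop
        have h2 : (fun ε : ℝ => ε * |φ w|) 0 < a x ⬝ᵥ a w - p x ⬝ᵥ p w := by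
          simp only [zero_mul]
          have := hf.neg x w (Ne.symm hw.1) hw.2
          linarith
        filter_upwards [(hcont.continuousAt.eventually (gt_mem_nhds h2)).filter_mono
          nhdsWithin_le_nhds] with ε hε _ _
        exact hε
      · exact Filter.Eventually.of_forall fun ε h4 h5 => absurd ⟨h4, h5⟩ hw
    obtain ⟨ε, h4, h5, h6⟩ := (h1.and (h3.and self_mem_nhdsWithin)).exists
    exact ⟨ε, h6, h4, h5⟩
  -- the new Gram matrix
  obtain ⟨B', hB'⟩ : ∃ B' : Option V → Option V → ℝ, B' = fun o o' =>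
      dis a x ε b o ⬝ᵥ dis a x ε b o' + ε ^ 2 * th x o * th x o' * δ +
        ε * (|th x o| * ψ (sg x o') + |th x o'| * ψ (sg x o)) := ⟨_, rfl⟩
  have hT' : ∀ o o', dis p x ε s o ⬝ᵥ dis p x ε s o' - B' o o' =
      (p (sg x o) ⬝ᵥ p (sg x o') - a (sg x o) ⬝ᵥ a (sg x o')) +
        ε * (th x o * φ (sg x o') + th x o' * φ (sg x o)) -
        ε * (|th x o| * ψ (sg x o') + |th x o'| * ψ (sg x o)) := by
    intro o o'
    rw [hB', dis_dp]
    simp only
    rw [dis_dp, hφ, hδ]
    ring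
  have hsymm : ∀ o o', B' o o' = B' o' o := by
    intro o o'
    rw [hB']
    simp only
    rw [dotProduct_comm (dis a x ε b o)]
    ring
  obtain ⟨m', a', ha', hind⟩ := exists_gram B' hsymm (by
    intro c hc
    obtain ⟨z, hz⟩ : ∃ z : V → ℝ, z = fun v => c (some v) + if v = x then c none else 0 := ⟨_, rfl⟩
    obtain ⟨g, hg⟩ : ∃ g : ℝ, g = ε * (c (some x) - c none) := ⟨_, rfl⟩
    have hzx : z x = c (some x) + c none := by rw [hz]; simp
    have s1 : ∑ o, c o • dis a x ε b o = ∑ v, z v • a v + g • b := by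
      rw [Fintype.sum_option]
      simp only [dis, sg, th, smul_add, Finset.sum_add_distrib, hz, add_smul, ite_smul, zero_smul,
        Finset.sum_ite_eq', Finset.mem_univ, if_true]
      have h1 : ∑ v, c (some v) • (ε * if v = x then (1 : ℝ) else 0) • b = (ε * c (some x)) • b := by
        rw [Finset.sum_eq_single x]
        · rw [if_pos rfl, smul_smul]; congr 1; ring
        · intro v _ hv; rw [if_neg hv]; simp
        · intro h; exact absurd (Finset.mem_univ _) h
      rw [h1, smul_smul, hg]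
      have h2 : (ε * (c (some x) - c none)) • b = (ε * c (some x)) • b + (c none * (ε * -1)) • b := by
        rw [← add_smul]; congr 1; ring
      rw [h2]
      abel
    have s2 : ε * ∑ o, c o * th x o = g := by
      rw [Fintype.sum_option]
      simp only [th, mul_ite, mul_one, mul_zero, Finset.sum_ite_eq', Finset.mem_univ, if_true, hg]
      ring
    have s3 : ∑ o, c o * |th x o| = z x := by
      rw [Fintype.sum_option, hzx]
      have h1 : ∑ v, c (some v) * |th x (some v)| = c (some x) := by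
        rw [Finset.sum_eq_single x]
        · simp [th]
        · intro v _ hv; simp [th, hv]
        · intro h; exact absurd (Finset.mem_univ _) h
      rw [h1]
      simp [th, add_comm]
    have s4 : ∑ o, c o * ψ (sg x o) = ∑ v, z v * ψ v := by
      rw [Fintype.sum_option]
      simp only [sg, hψx, mul_zero, zero_add]
      refine Finset.sum_congr rfl fun v _ => ?_
      rw [hz]
      simp only
      by_cases hv : v = x
      · rw [hv, hψx, mul_zero, mul_zero]
      · rw [if_neg hv, add_zero]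
    have hQ : ∑ o, ∑ o', c o * c o' * B' o o' =
        (∑ v, z v • a v + g • b) ⬝ᵥ (∑ v, z v • a v + g • b) + g ^ 2 * δ +
          2 * ε * (z x * ∑ v, z v * ψ v) := by
      rw [← s1, new_dp]
      have e1 : ∀ o o', c o * c o' * B' o o' = c o * c o' * (dis a x ε b o ⬝ᵥ dis a x ε b o') +
          ε ^ 2 * δ * (c o * c o' * (th x o * th x o')) +
          ε * (c o * c o' * (|th x o| * ψ (sg x o'))) +
          ε * (c o * c o' * (ψ (sg x o) * |th x o'|)) := by
        intro o o'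
        rw [hB']
        ring
      simp only [e1, Finset.sum_add_distrib, ← Finset.mul_sum]
      rw [new_prod, new_prod, new_prod, s3, s4, ← s2]
      ring
    rw [hQ]
    have q1 := new_quad (∑ v, z v • a v) b g δ hδ0
    rw [← hκ, new_dp] at q1
    have q2 := hl z
    have hS0 : 0 ≤ ∑ v, z v ^ 2 := Finset.sum_nonneg fun v _ => sq_nonneg _
    have q3 : -(2 * Ψ * ∑ v, z v ^ 2) ≤ 2 * (z x * ∑ v, z v * ψ v) := by
      have e1 : -(2 * Ψ * ∑ v, z v ^ 2) = ∑ v, -(2 * ∑ v, z v ^ 2) * ψ v := by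
        rw [← Finset.mul_sum, hΨ]; ring
      have e2 : 2 * (z x * ∑ v, z v * ψ v) = ∑ v, 2 * (z x * z v) * ψ v := by
        rw [Finset.mul_sum, Finset.mul_sum]
        exact Finset.sum_congr rfl fun v _ => by ring
      rw [e1, e2]
      refine Finset.sum_le_sum fun v _ => ?_
      have h1 : z x ^ 2 ≤ ∑ v, z v ^ 2 :=
        Finset.single_le_sum (f := fun v => z v ^ 2) (fun v _ => sq_nonneg _) (Finset.mem_univ x)
      have h2 : z v ^ 2 ≤ ∑ v, z v ^ 2 :=
        Finset.single_le_sum (f := fun v => z v ^ 2) (fun v _ => sq_nonneg _) (Finset.mem_univ v)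
      have h3 : -(2 * ∑ v, z v ^ 2) ≤ 2 * (z x * z v) := by nlinarith [sq_nonneg (z x + z v)]
      have h4 := mul_le_mul_of_nonneg_right h3 (hψ0 v)
      linarith
    have q4 : (κ * l - ε * (2 * Ψ)) * ∑ v, z v ^ 2 + κ * g ^ 2 ≤
        (∑ v, z v • a v + g • b) ⬝ᵥ (∑ v, z v • a v + g • b) + g ^ 2 * δ +
          2 * ε * (z x * ∑ v, z v * ψ v) := by
      have h1 := mul_le_mul_of_nonneg_left q2 hκ0.le
      have h2 := mul_le_mul_of_nonneg_left q3 hε0.le
      linarith
    refine lt_of_lt_of_le ?_ q4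
    have h5 : 0 < κ * l - ε * (2 * Ψ) := by linarith
    rcases hS0.lt_or_eq with h8 | h8
    · have h9 := mul_pos h5 h8
      have h10 : 0 ≤ κ * g ^ 2 := by positivity
      linarith
    · have h9 : ∀ v, z v = 0 := by
        intro v
        have h10 := (Finset.sum_eq_zero_iff_of_nonneg (fun v _ => sq_nonneg (z v))).1 h8.symm v
          (Finset.mem_univ v)
        exact pow_eq_zero_iff (two_ne_zero) |>.1 h10
      have hg0 : g ≠ 0 := by
        intro h
        apply hc
        have h11 : c (some x) - c none = 0 := by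
          rw [hg] at h
          rcases mul_eq_zero.1 h with h12 | h12
          · exact absurd h12 hε0.ne'
          · exact h12
        have h12 := h9 x
        rw [hzx] at h12
        have h13 : c none = 0 := by linarith
        funext o
        rcases o with _ | v
        · exact h13
        · have h14 := h9 v
          rw [hz] at h14
          simpa [h13] using h14
      rw [← h8, mul_zero, zero_add]
      positivity)
  refine ⟨m', dis p x ε s, a', ⟨?_, ?_⟩, hind⟩
  · intro o o' h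
    rw [ha', ← sub_eq_zero, hT']
    rcases o with _ | v <;> rcases o' with _ | v'
    · simp only [sg, th, hφx, hψx]
      rw [hf.zero x x (Or.inl rfl)]
      ring
    · simp only [sg, th, hφx, hψx]
      have h1 : v' = x ∨ (G.Adj x v' ∧ v' ∈ B) := by
        rcases h with h | h
        · exact absurd h (by simp)
        · exact h
      rcases h1 with rfl | ⟨h1, h2⟩
      · rw [hφx, hψx, hf.zero v' v' (Or.inl rfl)]
        ring
      · rw [if_neg h1.ne', hψB v' h2, hf.zero x v' (Or.inr h1)]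
        simp only [abs_neg, abs_one, abs_zero]
        ring
    · simp only [sg, th, hφx, hψx]
      have h1 : v = x ∨ (G.Adj x v ∧ v ∈ B) := by
        rcases h with h | h
        · exact absurd h (by simp)
        · exact h
      rcases h1 with rfl | ⟨h1, h2⟩
      · rw [hφx, hψx, hf.zero v v (Or.inl rfl)]
        ring
      · rw [if_neg h1.ne', hψB v h2, hf.zero v x (Or.inr h1.symm)]
        simp only [abs_neg, abs_one, abs_zero]
        ring
    · simp only [sg, th]
      by_cases hv : v = x <;> by_cases hv' : v' = x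
      · subst hv; subst hv'
        rw [hφx, hψx, hf.zero _ _ (Or.inl rfl)]
        ring
      · subst hv
        have h1 : G.Adj v v' ∧ (v = v → v' ∈ A) ∧ (v' = v → v ∈ A) := by
          rcases h with h | h
          · exact absurd (Option.some_injective _ h).symm hv'
          · exact h
        rw [if_pos rfl, if_neg hv', hφx, hψx, hψA v' (h1.2.1 rfl), hf.zero v v' (Or.inr h1.1)]
        simp only [abs_one, abs_zero]
        ring
      · subst hv'
        have h1 : G.Adj v v' ∧ (v = v' → v' ∈ A) ∧ (v' = v' → v ∈ A) := by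
          rcases h with h | h
          · exact absurd (Option.some_injective _ h) hv
          · exact h
        rw [if_neg hv, if_pos rfl, hφx, hψx, hψA v (h1.2.2 rfl), hf.zero v v' (Or.inr h1.1)]
        simp only [abs_one, abs_zero]
        ring
      · have h1 : v = v' ∨ G.Adj v v' := by
          rcases h with h | h
          · exact Or.inl (Option.some_injective _ h)
          · exact Or.inr h.1
        rw [if_neg hv, if_neg hv', hf.zero v v' h1]
        simp only [abs_zero]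
        ring
  · intro o o' hne hadj
    rw [ha', ← sub_neg, hT']
    have hsmall : ∀ w, w ≠ x → ¬ G.Adj x w →
        p x ⬝ᵥ p w - a x ⬝ᵥ a w + ε * φ w < 0 ∧ p x ⬝ᵥ p w - a x ⬝ᵥ a w - ε * φ w < 0 := by
      intro w h1 h2
      have h3 := hε2 w h1 h2
      have h4 := mul_le_mul_of_nonneg_left (le_abs_self (φ w)) hε0.le
      have h5 := mul_le_mul_of_nonneg_left (neg_abs_le (φ w)) hε0.le
      constructor <;> linarith
    have hcomm : ∀ w, p w ⬝ᵥ p x - a w ⬝ᵥ a x = p x ⬝ᵥ p w - a x ⬝ᵥ a w := by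
      intro w
      rw [dotProduct_comm (p w), dotProduct_comm (a w)]
    have hnone : ∀ w, ¬ (w = x ∨ (G.Adj x w ∧ w ∈ B)) →
        p x ⬝ᵥ p w - a x ⬝ᵥ a w - ε * φ w - ε * ψ w < 0 := by
      intro w hw
      rw [not_or] at hw
      by_cases h1 : G.Adj x w
      · have h2 : w ∉ B := fun h => hw.2 ⟨h1, h⟩
        have h3 : w ∈ A := (hAdj w h1).resolve_right h2
        rw [hψA w h3, hf.zero x w (Or.inr h1)]
        have h4 : 0 < φ w := by
          rw [hφ]; simp only; linarith [hA w ⟨h3, h2⟩]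
        have h5 := mul_pos hε0 h4
        linarith
      · rw [hψN w h1]
        have := (hsmall w hw.1 h1).2
        linarith
    have hsome : ∀ w, w ≠ x → ¬ (G.Adj x w ∧ w ∈ A) →
        p x ⬝ᵥ p w - a x ⬝ᵥ a w + ε * φ w - ε * ψ w < 0 := by
      intro w hwx hw
      by_cases h1 : G.Adj x w
      · have h2 : w ∉ A := fun h => hw ⟨h1, h⟩
        have h3 : w ∈ B := (hAdj w h1).resolve_left h2
        rw [hψB w h3, hf.zero x w (Or.inr h1)]
        have h4 : φ w < 0 := by
          rw [hφ]; simp only; linarith [hB w ⟨h3, h2⟩]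
        have h5 := mul_neg_of_pos_of_neg hε0 h4
        linarith
      · rw [hψN w h1]
        have := (hsmall w hwx h1).1
        linarith
    rcases o with _ | v <;> rcases o' with _ | v'
    · exact absurd rfl hne
    · simp only [sg, th, hφx, hψx]
      have h1 : ¬ (v' = x ∨ (G.Adj x v' ∧ v' ∈ B)) := hadj
      have h2 := hnone v' h1
      rw [not_or] at h1
      rw [if_neg h1.1]
      simp only [abs_neg, abs_one, abs_zero]
      linarith
    · simp only [sg, th, hφx, hψx]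
      have h1 : ¬ (v = x ∨ (G.Adj x v ∧ v ∈ B)) := hadj
      have h2 := hnone v h1
      rw [not_or] at h1
      rw [if_neg h1.1, hcomm]
      simp only [abs_neg, abs_one, abs_zero]
      linarith
    · have hvv : v ≠ v' := fun h => hne (by rw [h])
      have h1 : ¬ (G.Adj v v' ∧ (v = x → v' ∈ A) ∧ (v' = x → v ∈ A)) := hadj
      simp only [sg, th]
      by_cases hv : v = x <;> by_cases hv' : v' = x
      · exact absurd (hv.trans hv'.symm) hvv
      · subst hv
        rw [if_pos rfl, if_neg hv', hφx, hψx]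
        have h2 := hsome v' hv' (fun h => h1 ⟨h.1, fun _ => h.2, fun h3 => absurd h3 hv'⟩)
        simp only [abs_one, abs_zero]
        linarith
      · subst hv'
        rw [if_neg hv, if_pos rfl, hφx, hψx, hcomm]
        have h2 := hsome v hv (fun h => h1 ⟨h.1.symm, fun h3 => absurd h3 hv, fun _ => h.2⟩)
        simp only [abs_one, abs_zero]
        linarith
      · rw [if_neg hv, if_neg hv']
        have h2 : ¬ G.Adj v v' := fun h => h1 ⟨h, fun h3 => absurd h3 hv, fun h3 => absurd h3 hv'⟩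
        have h3 := hf.neg v v' hvv h2
        simp only [abs_zero]
        linarith

end Pool.Agent.H4.Split
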