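import Pool.Agent.H4.Split.Sign
import Pool.Agent.H4.Split.New
import Pool.Agent.H85.Fold4.Sources

/-!
# Project FOLD, vertex splits: closure of the class of graphs with folding vectors
-/

set_option autoImplicit false

open Finset

namespace Pool.Agent.H4.Split

open Pool.Agent.H85.Fold2 Pool.Agent.H85.Fold3 Pool.Agent.H85.Fold4

/-- vertex splits whose new edge has a join of pairs of points and pentagons as its link -/
theorem hasFold_split {V : Type} [DecidableEq V] [Fintype V] {G : SimpleGraph V} {k : ℕ} (x : V)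
    (A B : Set V) (hx : A ∪ B = G.neighborSet x)
    (hA : (G.induce (A \ B)).Preconnected) (hB : (G.induce (B \ A)).Preconnected)
    (hC : SmallSphere (G.induce (A ∩ B)) k) (ρ : Finset V) (hρ : (ρ : Set V) ⊆ A ∩ B)
    (hρc : G.IsClique (ρ : Set V)) (hρk : ρ.card = k) (a₀ b₀ : V) (ha₀ : a₀ ∈ A \ B)
    (hb₀ : b₀ ∈ B \ A) (hab : ∀ c ∈ ρ, G.Adj a₀ c ∧ G.Adj b₀ c)
    (h : HasFold G (k + 2) univ) : HasFold (vertexSplit G x A B) (k + 2) univ := by
  obtain ⟨m, p, a, hf, ha⟩ := h.indep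
  obtain ⟨s, b, h1, h2, h3, h4, h5⟩ := exists_sep hf ha x A B hx hA hB hC ρ hρ hρc hρk a₀ b₀ ha₀
    hb₀ hab
  obtain ⟨m', p', a', hf', ha'⟩ := split_fold hf ha x A B hx s b h1 h2 h3 h4 h5
  exact exists_foldL hf' ha'

end Pool.Agent.H4.Split
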