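import Pool.Agent.H85.Fold4.Base

/-!
# Project FOLD, vertex splits: definitions
-/

set_option autoImplicit false

open Finset

namespace Pool.Agent.H4.Split

open Pool.Agent.H85.Fold4

/-- symmetric matrices which are zero on the diagonal and on the edges, and negative elsewhere -/
structure NegForm {W : Type} (H : SimpleGraph W) (T : W → W → ℝ) : Prop where
  symm : ∀ u v, T u v = T v u
  zero : ∀ u v, u = v ∨ H.Adj u v → T u v = 0
  neg : ∀ u v, u ≠ v → ¬ H.Adj u v → T u v < 0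

/-- the properties of the matrices `T` of a sphere of dimension `k - 1` used for vertex splits -/
structure Nice {W : Type} [Fintype W] (H : SimpleGraph W) (k : ℕ) (T : W → W → ℝ) : Prop where
  card_le : ∀ ρ : Finset W, H.IsClique (ρ : Set W) → ρ.card ≤ k
  solve : ∀ g : W → ℝ, ∃ y : W → ℝ, ∀ u, ∑ v, T u v * y v = g u
  cop : ∀ y : W → ℝ, (∀ u, ∑ v, T u v * y v ≤ 0) → ∑ u, ∑ v, y u * y v * T u v ≤ 0
  nonpos : ∀ (ρ : Finset W) (y : W → ℝ), H.IsClique (ρ : Set W) → ρ.card = k →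
    (∀ u ∈ ρ, ∑ v, T u v * y v = 0) → ∑ u, ∑ v, y u * y v * T u v ≤ 0

/-- the inner product of `ℝ^{n,m}` -/
def ip {n m : ℕ} (y z : (Fin n → ℝ) × (Fin m → ℝ)) : ℝ := y.1 ⬝ᵥ z.1 - y.2 ⬝ᵥ z.2

end Pool.Agent.H4.Split
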