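import Pool.Agent.H4.Split.Defs

/-!
# Project FOLD, vertex splits: orthogonal vectors in `ℝ^{n,m}`
-/

set_option autoImplicit false

open Finset

namespace Pool.Agent.H4.Split

private theorem dim_ip_comm {n m : ℕ} (y z : (Fin n → ℝ) × (Fin m → ℝ)) : ip y z = ip z y := by
  unfold ip
  rw [dotProduct_comm y.1, dotProduct_comm y.2]

private theorem dim_ip_sum {ι : Type} {n m : ℕ} (s : Finset ι) (c : ι → ℝ)
    (y : ι → (Fin n → ℝ) × (Fin m → ℝ)) (w : (Fin n → ℝ) × (Fin m → ℝ)) :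
    ip (∑ i ∈ s, c i • y i) w = ∑ i ∈ s, c i * ip (y i) w := by
  unfold ip
  rw [Prod.fst_sum, Prod.snd_sum, sum_dotProduct, sum_dotProduct, ← Finset.sum_sub_distrib]
  refine Finset.sum_congr rfl fun i _ => ?_
  rw [Prod.smul_fst, Prod.smul_snd, smul_dotProduct, smul_dotProduct, smul_eq_mul, smul_eq_mul]
  ring

/-- more than `n` pairwise orthogonal vectors with nonnegative squares in `ℝ^{n,m}` are linearly
dependent, and the vectors with positive squares do not occur in the relation -/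
theorem dim_le {ι : Type} [Fintype ι] {n m : ℕ} (hn : n < Fintype.card ι)
    (y : ι → (Fin n → ℝ) × (Fin m → ℝ)) (horth : ∀ i j, i ≠ j → ip (y i) (y j) = 0)
    (hpos : ∀ i, 0 ≤ ip (y i) (y i)) :
    ∃ c : ι → ℝ, c ≠ 0 ∧ ∑ i, c i • y i = 0 ∧ ∀ i, 0 < ip (y i) (y i) → c i = 0 := by
  classical
  have hdep : ¬ LinearIndependent ℝ (fun i => (y i).1) := by
    intro h
    have h1 := h.fintype_card_le_finrank
    rw [Module.finrank_fintype_fun_eq_card, Fintype.card_fin] at h1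
    omega
  rw [Fintype.not_linearIndependent_iff] at hdep
  obtain ⟨c, hc, i, hi⟩ := hdep
  have hz1 : (∑ i, c i • y i).1 = 0 := by
    rw [Prod.fst_sum]
    simpa using hc
  have hzz : ip (∑ i, c i • y i) (∑ i, c i • y i) = ∑ i, c i ^ 2 * ip (y i) (y i) := by
    rw [dim_ip_sum]
    refine Finset.sum_congr rfl fun i _ => ?_
    rw [dim_ip_comm, dim_ip_sum, Finset.sum_eq_single i]
    · ring
    · intro j _ hj
      rw [horth j i hj, mul_zero]
    · intro h
      exact absurd (Finset.mem_univ i) h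
  have hle : ip (∑ i, c i • y i) (∑ i, c i • y i)
      = - ((∑ i, c i • y i).2 ⬝ᵥ (∑ i, c i • y i).2) := by
    unfold ip
    rw [hz1, zero_dotProduct, zero_sub]
  have hnn : 0 ≤ (∑ i, c i • y i).2 ⬝ᵥ (∑ i, c i • y i).2 :=
    Finset.sum_nonneg fun j _ => mul_self_nonneg _
  have hge : 0 ≤ ∑ i, c i ^ 2 * ip (y i) (y i) :=
    Finset.sum_nonneg fun j _ => mul_nonneg (sq_nonneg _) (hpos j)
  have h0 : (∑ i, c i • y i).2 ⬝ᵥ (∑ i, c i • y i).2 = 0 := by
    rw [hzz] at hle
    linarith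
  have hs0 : ∑ i, c i ^ 2 * ip (y i) (y i) = 0 := by
    rw [← hzz, hle, h0, neg_zero]
  refine ⟨c, fun h => hi (by rw [h]; rfl), ?_, ?_⟩
  · refine Prod.ext hz1 ?_
    exact dotProduct_self_eq_zero.1 h0
  · intro j hj
    have h1 := (Finset.sum_eq_zero_iff_of_nonneg
      (fun j _ => mul_nonneg (sq_nonneg (c j)) (hpos j))).1 hs0 j (Finset.mem_univ j)
    rcases mul_eq_zero.1 h1 with h | h
    · exact pow_eq_zero_iff (two_ne_zero) |>.1 h
    · exact absurd h hj.ne'

end Pool.Agent.H4.Split
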