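import Pool.Agent.H4.Split.Defs

/-!
# Project FOLD, vertex splits: pairs of points and pentagons
-/

set_option autoImplicit false

open Finset

namespace Pool.Agent.H4.Split

theorem nice_pair {T : Fin 2 → Fin 2 → ℝ} (hT : NegForm (⊥ : SimpleGraph (Fin 2)) T) :
    Nice (⊥ : SimpleGraph (Fin 2)) 1 T := by
  have h00 : T 0 0 = 0 := hT.zero 0 0 (Or.inl rfl)
  have h11 : T 1 1 = 0 := hT.zero 1 1 (Or.inl rfl)
  have h01 : T 0 1 < 0 := hT.neg 0 1 (by decide) (by simp)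
  have h10 : T 1 0 = T 0 1 := hT.symm 1 0
  constructor
  · intro ρ hρ
    refine Finset.card_le_one.mpr fun a ha b hb => ?_
    by_contra hab
    exact (hρ ha hb hab : (⊥ : SimpleGraph (Fin 2)).Adj a b).elim
  · intro g
    refine ⟨![g 1 / T 0 1, g 0 / T 0 1], fun u => ?_⟩
    fin_cases u
    · simp [Fin.sum_univ_two, h00]
      field_simp [h01.ne]
    · simp [Fin.sum_univ_two, h11, h10]
      field_simp [h01.ne]
  · intro y hy
    have e0 := hy 0
    have e1 := hy 1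
    simp only [Fin.sum_univ_two, h00, h11, h10] at e0 e1 ⊢
    have y1 : 0 ≤ y 1 := by nlinarith
    have y0 : 0 ≤ y 0 := by nlinarith
    have := mul_nonneg y0 y1
    nlinarith
  · intro ρ y hρ hc hy
    obtain ⟨u, rfl⟩ := Finset.card_eq_one.mp hc
    have e := hy u (by simp)
    simp only [Fin.sum_univ_two, h00, h11, h10] at e ⊢
    fin_cases u
    · simp only [Fin.zero_eta, h00, zero_mul, zero_add] at e
      have : y 1 = 0 := by
        rcases mul_eq_zero.mp e with h | h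
        · exact absurd h h01.ne
        · exact h
      simp [this]
    · simp only [Fin.mk_one, h11, h10, zero_mul, add_zero] at e
      have : y 0 = 0 := by
        rcases mul_eq_zero.mp e with h | h
        · exact absurd h h01.ne
        · exact h
      simp [this]

private theorem cyclic5_aux (h0 h1 h2 h3 h4 : ℝ) (p0 : 0 ≤ h0) (p3 : 0 ≤ h3)
    (p4 : 0 ≤ h4) (m : h0 ≤ h1) :
    4 * (h0 * h1 + h1 * h2 + h2 * h3 + h3 * h4 + h4 * h0) ≤ (h0 + h1 + h2 + h3 + h4) ^ 2 := by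
  nlinarith [sq_nonneg (h0 - h1 + h2 - h3 + h4), mul_nonneg p3 p0, mul_nonneg p4 (sub_nonneg.mpr m)]

/-- the cyclic inequality -/
theorem cyclic5 (h0 h1 h2 h3 h4 : ℝ) (p0 : 0 ≤ h0) (p1 : 0 ≤ h1) (p2 : 0 ≤ h2) (p3 : 0 ≤ h3)
    (p4 : 0 ≤ h4) :
    4 * (h0 * h1 + h1 * h2 + h2 * h3 + h3 * h4 + h4 * h0) ≤ (h0 + h1 + h2 + h3 + h4) ^ 2 := by
  by_cases m0 : h0 ≤ h1
  · exact cyclic5_aux h0 h1 h2 h3 h4 p0 p3 p4 m0
  by_cases m1 : h1 ≤ h2
  · have := cyclic5_aux h1 h2 h3 h4 h0 p1 p4 p0 m1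
    linarith [this, show (h1 + h2 + h3 + h4 + h0) ^ 2 = (h0 + h1 + h2 + h3 + h4) ^ 2 by ring,
      show h1 * h2 + h2 * h3 + h3 * h4 + h4 * h0 + h0 * h1
        = h0 * h1 + h1 * h2 + h2 * h3 + h3 * h4 + h4 * h0 by ring]
  by_cases m2 : h2 ≤ h3
  · have := cyclic5_aux h2 h3 h4 h0 h1 p2 p0 p1 m2
    linarith [this, show (h2 + h3 + h4 + h0 + h1) ^ 2 = (h0 + h1 + h2 + h3 + h4) ^ 2 by ring,
      show h2 * h3 + h3 * h4 + h4 * h0 + h0 * h1 + h1 * h2
        = h0 * h1 + h1 * h2 + h2 * h3 + h3 * h4 + h4 * h0 by ring]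
  by_cases m3 : h3 ≤ h4
  · have := cyclic5_aux h3 h4 h0 h1 h2 p3 p1 p2 m3
    linarith [this, show (h3 + h4 + h0 + h1 + h2) ^ 2 = (h0 + h1 + h2 + h3 + h4) ^ 2 by ring,
      show h3 * h4 + h4 * h0 + h0 * h1 + h1 * h2 + h2 * h3
        = h0 * h1 + h1 * h2 + h2 * h3 + h3 * h4 + h4 * h0 by ring]
  have m4 : h4 ≤ h0 := by linarith
  have := cyclic5_aux h4 h0 h1 h2 h3 p4 p2 p3 m4
  linarith [this, show (h4 + h0 + h1 + h2 + h3) ^ 2 = (h0 + h1 + h2 + h3 + h4) ^ 2 by ring,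
    show h4 * h0 + h0 * h1 + h1 * h2 + h2 * h3 + h3 * h4
      = h0 * h1 + h1 * h2 + h2 * h3 + h3 * h4 + h4 * h0 by ring]

/-- the identity behind the pentagon -/
private theorem penta_id (a b c d e y0 y1 y2 y3 y4 : ℝ) :
    4 * (a * b * c * d * e) * (a * (y0 * y2) + b * (y2 * y4) + c * (y4 * y1) + d * (y1 * y3)
      + e * (y3 * y0))
    = (b * d * (a * y2 + e * y3) + e * b * (c * y4 + d * y3) + c * e * (a * y0 + b * y4)
        + a * c * (d * y1 + e * y0) + d * a * (b * y2 + c * y1)) ^ 2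
      - 4 * ((b * d * (a * y2 + e * y3)) * (e * b * (c * y4 + d * y3))
        + (e * b * (c * y4 + d * y3)) * (c * e * (a * y0 + b * y4))
        + (c * e * (a * y0 + b * y4)) * (a * c * (d * y1 + e * y0))
        + (a * c * (d * y1 + e * y0)) * (d * a * (b * y2 + c * y1))
        + (d * a * (b * y2 + c * y1)) * (b * d * (a * y2 + e * y3))) := by
  ring

private theorem penta_clique (ρ : Finset (Fin 5))
    (h : (SimpleGraph.cycleGraph 5).IsClique (ρ : Set (Fin 5))) : ρ.card ≤ 2 := by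
  have key : ∀ ρ : Finset (Fin 5),
      (∀ a ∈ ρ, ∀ b ∈ ρ, a ≠ b → (SimpleGraph.cycleGraph 5).Adj a b) → ρ.card ≤ 2 := by
    decide
  exact key ρ fun a ha b hb hab => h (by simpa using ha) (by simpa using hb) hab

private theorem five (h0 h1 h2 h3 h4 : ℝ)
    (h : (h0 = 0 ∧ h1 = 0) ∨ (h1 = 0 ∧ h2 = 0) ∨ (h2 = 0 ∧ h3 = 0) ∨ (h3 = 0 ∧ h4 = 0) ∨
      (h4 = 0 ∧ h0 = 0)) :
    0 ≤ (h0 + h1 + h2 + h3 + h4) ^ 2
      - 4 * (h0 * h1 + h1 * h2 + h2 * h3 + h3 * h4 + h4 * h0) := by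
  rcases h with ⟨rfl, rfl⟩ | ⟨rfl, rfl⟩ | ⟨rfl, rfl⟩ | ⟨rfl, rfl⟩ | ⟨rfl, rfl⟩
  · have := sq_nonneg (h2 - h3 + h4); linarith [this, show (0 + 0 + h2 + h3 + h4) ^ 2
      - 4 * (0 * 0 + 0 * h2 + h2 * h3 + h3 * h4 + h4 * 0) = (h2 - h3 + h4) ^ 2 by ring]
  · have := sq_nonneg (h3 - h4 + h0); linarith [this, show (h0 + 0 + 0 + h3 + h4) ^ 2
      - 4 * (h0 * 0 + 0 * 0 + 0 * h3 + h3 * h4 + h4 * h0) = (h3 - h4 + h0) ^ 2 by ring]
  · have := sq_nonneg (h4 - h0 + h1); linarith [this, show (h0 + h1 + 0 + 0 + h4) ^ 2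
      - 4 * (h0 * h1 + h1 * 0 + 0 * 0 + 0 * h4 + h4 * h0) = (h4 - h0 + h1) ^ 2 by ring]
  · have := sq_nonneg (h0 - h1 + h2); linarith [this, show (h0 + h1 + h2 + 0 + 0) ^ 2
      - 4 * (h0 * h1 + h1 * h2 + h2 * 0 + 0 * 0 + 0 * h0) = (h0 - h1 + h2) ^ 2 by ring]
  · have := sq_nonneg (h1 - h2 + h3); linarith [this, show (0 + h1 + h2 + h3 + 0) ^ 2
      - 4 * (0 * h1 + h1 * h2 + h2 * h3 + h3 * 0 + 0 * 0) = (h1 - h2 + h3) ^ 2 by ring]

theorem nice_pentagon {T : Fin 5 → Fin 5 → ℝ} (hT : NegForm (SimpleGraph.cycleGraph 5) T) :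
    Nice (SimpleGraph.cycleGraph 5) 2 T := by
  obtain ⟨a, ha⟩ : ∃ a, a = -T 0 2 := ⟨_, rfl⟩
  obtain ⟨b, hb⟩ : ∃ b, b = -T 2 4 := ⟨_, rfl⟩
  obtain ⟨c, hc⟩ : ∃ c, c = -T 4 1 := ⟨_, rfl⟩
  obtain ⟨d, hd⟩ : ∃ d, d = -T 1 3 := ⟨_, rfl⟩
  obtain ⟨e, he⟩ : ∃ e, e = -T 3 0 := ⟨_, rfl⟩
  have pa : 0 < a := by rw [ha]; have := hT.neg 0 2 (by decide) (by decide); linarith
  have pb : 0 < b := by rw [hb]; have := hT.neg 2 4 (by decide) (by decide); linarith
  have pc : 0 < c := by rw [hc]; have := hT.neg 4 1 (by decide) (by decide); linarith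
  have pd : 0 < d := by rw [hd]; have := hT.neg 1 3 (by decide) (by decide); linarith
  have pe : 0 < e := by rw [he]; have := hT.neg 3 0 (by decide) (by decide); linarith
  have t00 : T 0 0 = 0 := hT.zero 0 0 (Or.inl rfl)
  have t11 : T 1 1 = 0 := hT.zero 1 1 (Or.inl rfl)
  have t22 : T 2 2 = 0 := hT.zero 2 2 (Or.inl rfl)
  have t33 : T 3 3 = 0 := hT.zero 3 3 (Or.inl rfl)
  have t44 : T 4 4 = 0 := hT.zero 4 4 (Or.inl rfl)
  have t01 : T 0 1 = 0 := hT.zero 0 1 (Or.inr (by decide))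
  have t10 : T 1 0 = 0 := hT.zero 1 0 (Or.inr (by decide))
  have t12 : T 1 2 = 0 := hT.zero 1 2 (Or.inr (by decide))
  have t21 : T 2 1 = 0 := hT.zero 2 1 (Or.inr (by decide))
  have t23 : T 2 3 = 0 := hT.zero 2 3 (Or.inr (by decide))
  have t32 : T 3 2 = 0 := hT.zero 3 2 (Or.inr (by decide))
  have t34 : T 3 4 = 0 := hT.zero 3 4 (Or.inr (by decide))
  have t43 : T 4 3 = 0 := hT.zero 4 3 (Or.inr (by decide))
  have t40 : T 4 0 = 0 := hT.zero 4 0 (Or.inr (by decide))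
  have t04 : T 0 4 = 0 := hT.zero 0 4 (Or.inr (by decide))
  have t02 : T 0 2 = -a := by rw [ha]; ring
  have t20 : T 2 0 = -a := by rw [hT.symm 2 0, t02]
  have t24 : T 2 4 = -b := by rw [hb]; ring
  have t42 : T 4 2 = -b := by rw [hT.symm 4 2, t24]
  have t41 : T 4 1 = -c := by rw [hc]; ring
  have t14 : T 1 4 = -c := by rw [hT.symm 1 4, t41]
  have t13 : T 1 3 = -d := by rw [hd]; ring
  have t31 : T 3 1 = -d := by rw [hT.symm 3 1, t13]
  have t30 : T 3 0 = -e := by rw [he]; ring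
  have t03 : T 0 3 = -e := by rw [hT.symm 0 3, t30]
  have pP : 0 < a * b * c * d * e := by positivity
  have quad : ∀ y : Fin 5 → ℝ, ∑ u, ∑ v, y u * y v * T u v
      = -2 * (a * (y 0 * y 2) + b * (y 2 * y 4) + c * (y 4 * y 1) + d * (y 1 * y 3)
        + e * (y 3 * y 0)) := by
    intro y
    simp only [Fin.sum_univ_five, t00, t11, t22, t33, t44, t01, t10, t12, t21, t23, t32, t34, t43,
      t40, t04, t02, t20, t24, t42, t41, t14, t13, t31, t30, t03]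
    ring
  have r0 : ∀ y : Fin 5 → ℝ, ∑ v, T 0 v * y v = -(a * y 2 + e * y 3) := by
    intro y
    simp only [Fin.sum_univ_five, t00, t01, t04, t02, t03]
    ring
  have r1 : ∀ y : Fin 5 → ℝ, ∑ v, T 1 v * y v = -(c * y 4 + d * y 3) := by
    intro y
    simp only [Fin.sum_univ_five, t10, t11, t12, t14, t13]
    ring
  have r2 : ∀ y : Fin 5 → ℝ, ∑ v, T 2 v * y v = -(a * y 0 + b * y 4) := by
    intro y
    simp only [Fin.sum_univ_five, t20, t21, t22, t23, t24]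
    ring
  have r3 : ∀ y : Fin 5 → ℝ, ∑ v, T 3 v * y v = -(d * y 1 + e * y 0) := by
    intro y
    simp only [Fin.sum_univ_five, t30, t31, t32, t33, t34]
    ring
  have r4 : ∀ y : Fin 5 → ℝ, ∑ v, T 4 v * y v = -(b * y 2 + c * y 1) := by
    intro y
    simp only [Fin.sum_univ_five, t40, t41, t42, t43, t44]
    ring
  constructor
  · exact penta_clique
  · intro g
    obtain ⟨P, hP⟩ : ∃ P, P = a * b * c * d * e := ⟨_, rfl⟩
    obtain ⟨h, hh⟩ : ∃ h : Fin 5 → ℝ, h = ![b * d * -(g 0), e * b * -(g 1), c * e * -(g 2),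
        a * c * -(g 3), d * a * -(g 4)] := ⟨_, rfl⟩
    have e0 : h 0 = b * d * -(g 0) := by rw [hh]; rfl
    have e1 : h 1 = e * b * -(g 1) := by rw [hh]; rfl
    have e2 : h 2 = c * e * -(g 2) := by rw [hh]; rfl
    have e3 : h 3 = a * c * -(g 3) := by rw [hh]; rfl
    have e4 : h 4 = d * a * -(g 4) := by rw [hh]; rfl
    refine ⟨![b * d / (2 * P) * (h 0 + h 2 + h 3 - h 1 - h 4),
      e * b / (2 * P) * (h 1 + h 3 + h 4 - h 2 - h 0),
      c * e / (2 * P) * (h 2 + h 4 + h 0 - h 3 - h 1),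
      a * c / (2 * P) * (h 3 + h 0 + h 1 - h 4 - h 2),
      d * a / (2 * P) * (h 4 + h 1 + h 2 - h 0 - h 3)], fun u => ?_⟩
    have y0 : ∀ x0 x1 x2 x3 x4 : ℝ, (![x0, x1, x2, x3, x4] : Fin 5 → ℝ) 0 = x0 := fun _ _ _ _ _ => rfl
    have y1 : ∀ x0 x1 x2 x3 x4 : ℝ, (![x0, x1, x2, x3, x4] : Fin 5 → ℝ) 1 = x1 := fun _ _ _ _ _ => rfl
    have y2 : ∀ x0 x1 x2 x3 x4 : ℝ, (![x0, x1, x2, x3, x4] : Fin 5 → ℝ) 2 = x2 := fun _ _ _ _ _ => rfl
    have y3 : ∀ x0 x1 x2 x3 x4 : ℝ, (![x0, x1, x2, x3, x4] : Fin 5 → ℝ) 3 = x3 := fun _ _ _ _ _ => rfl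
    have y4 : ∀ x0 x1 x2 x3 x4 : ℝ, (![x0, x1, x2, x3, x4] : Fin 5 → ℝ) 4 = x4 := fun _ _ _ _ _ => rfl
    fin_cases u
    · change _ = g 0
      refine (r0 _).trans ?_
      simp only [y2, y3, e0, e1, e2, e3, e4, hP]
      field_simp
      ring
    · change _ = g 1
      refine (r1 _).trans ?_
      simp only [y4, y3, e0, e1, e2, e3, e4, hP]
      field_simp
      ring
    · change _ = g 2
      refine (r2 _).trans ?_
      simp only [y0, y4, e0, e1, e2, e3, e4, hP]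
      field_simp
      ring
    · change _ = g 3
      refine (r3 _).trans ?_
      simp only [y0, y1, e0, e1, e2, e3, e4, hP]
      field_simp
      ring
    · change _ = g 4
      refine (r4 _).trans ?_
      simp only [y1, y2, e0, e1, e2, e3, e4, hP]
      field_simp
      ring
  · intro y hy
    have g0 : 0 ≤ a * y 2 + e * y 3 := by have := hy 0; rw [r0] at this; linarith
    have g1 : 0 ≤ c * y 4 + d * y 3 := by have := hy 1; rw [r1] at this; linarith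
    have g2 : 0 ≤ a * y 0 + b * y 4 := by have := hy 2; rw [r2] at this; linarith
    have g3 : 0 ≤ d * y 1 + e * y 0 := by have := hy 3; rw [r3] at this; linarith
    have g4 : 0 ≤ b * y 2 + c * y 1 := by have := hy 4; rw [r4] at this; linarith
    have key := cyclic5 _ _ _ _ _ (mul_nonneg (mul_pos pb pd).le g0)
      (mul_nonneg (mul_pos pe pb).le g1) (mul_nonneg (mul_pos pc pe).le g2)
      (mul_nonneg (mul_pos pa pc).le g3) (mul_nonneg (mul_pos pd pa).le g4)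
    have id := penta_id a b c d e (y 0) (y 1) (y 2) (y 3) (y 4)
    rw [quad]
    have : 0 ≤ 4 * (a * b * c * d * e) * (a * (y 0 * y 2) + b * (y 2 * y 4) + c * (y 4 * y 1)
        + d * (y 1 * y 3) + e * (y 3 * y 0)) := by
      rw [id]; linarith
    have := nonneg_of_mul_nonneg_right this (by positivity)
    linarith
  · intro ρ y hρ hcard hy
    obtain ⟨i, j, hij, rfl⟩ := Finset.card_eq_two.mp hcard
    have hadj : (SimpleGraph.cycleGraph 5).Adj i j := hρ (by simp) (by simp) hij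
    have zi := hy i (by simp)
    have zj := hy j (by simp)
    have id := penta_id a b c d e (y 0) (y 1) (y 2) (y 3) (y 4)
    rw [quad]
    suffices h : 0 ≤ 4 * (a * b * c * d * e) * (a * (y 0 * y 2) + b * (y 2 * y 4) + c * (y 4 * y 1)
        + d * (y 1 * y 3) + e * (y 3 * y 0)) by
      have := nonneg_of_mul_nonneg_right h (by positivity)
      linarith
    rw [id]
    have hcases : (i = 0 ∧ j = 1) ∨ (i = 1 ∧ j = 0) ∨ (i = 1 ∧ j = 2) ∨ (i = 2 ∧ j = 1) ∨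
        (i = 2 ∧ j = 3) ∨ (i = 3 ∧ j = 2) ∨ (i = 3 ∧ j = 4) ∨ (i = 4 ∧ j = 3) ∨
        (i = 4 ∧ j = 0) ∨ (i = 0 ∧ j = 4) := by
      revert hadj; clear * -; revert i j; decide
    obtain ⟨G0, hG0⟩ : ∃ G, G = a * y 2 + e * y 3 := ⟨_, rfl⟩
    obtain ⟨G1, hG1⟩ : ∃ G, G = c * y 4 + d * y 3 := ⟨_, rfl⟩
    obtain ⟨G2, hG2⟩ : ∃ G, G = a * y 0 + b * y 4 := ⟨_, rfl⟩
    obtain ⟨G3, hG3⟩ : ∃ G, G = d * y 1 + e * y 0 := ⟨_, rfl⟩
    obtain ⟨G4, hG4⟩ : ∃ G, G = b * y 2 + c * y 1 := ⟨_, rfl⟩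
    rw [← hG0, ← hG1, ← hG2, ← hG3, ← hG4]
    apply five
    rcases hcases with ⟨rfl, rfl⟩ | ⟨rfl, rfl⟩ | ⟨rfl, rfl⟩ | ⟨rfl, rfl⟩ | ⟨rfl, rfl⟩ |
      ⟨rfl, rfl⟩ | ⟨rfl, rfl⟩ | ⟨rfl, rfl⟩ | ⟨rfl, rfl⟩ | ⟨rfl, rfl⟩
    · rw [r0] at zi; rw [r1] at zj
      have zx : G0 = 0 := by linarith
      have zy : G1 = 0 := by linarith
      exact (Or.inl) ⟨by rw [zx]; ring, by rw [zy]; ring⟩
    · rw [r1] at zi; rw [r0] at zj
      have zx : G0 = 0 := by linarith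
      have zy : G1 = 0 := by linarith
      exact (Or.inl) ⟨by rw [zx]; ring, by rw [zy]; ring⟩
    · rw [r1] at zi; rw [r2] at zj
      have zx : G1 = 0 := by linarith
      have zy : G2 = 0 := by linarith
      exact (fun h => Or.inr (Or.inl h)) ⟨by rw [zx]; ring, by rw [zy]; ring⟩
    · rw [r2] at zi; rw [r1] at zj
      have zx : G1 = 0 := by linarith
      have zy : G2 = 0 := by linarith
      exact (fun h => Or.inr (Or.inl h)) ⟨by rw [zx]; ring, by rw [zy]; ring⟩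
    · rw [r2] at zi; rw [r3] at zj
      have zx : G2 = 0 := by linarith
      have zy : G3 = 0 := by linarith
      exact (fun h => Or.inr (Or.inr (Or.inl h))) ⟨by rw [zx]; ring, by rw [zy]; ring⟩
    · rw [r3] at zi; rw [r2] at zj
      have zx : G2 = 0 := by linarith
      have zy : G3 = 0 := by linarith
      exact (fun h => Or.inr (Or.inr (Or.inl h))) ⟨by rw [zx]; ring, by rw [zy]; ring⟩
    · rw [r3] at zi; rw [r4] at zj
      have zx : G3 = 0 := by linarith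
      have zy : G4 = 0 := by linarith
      exact (fun h => Or.inr (Or.inr (Or.inr (Or.inl h)))) ⟨by rw [zx]; ring, by rw [zy]; ring⟩
    · rw [r4] at zi; rw [r3] at zj
      have zx : G3 = 0 := by linarith
      have zy : G4 = 0 := by linarith
      exact (fun h => Or.inr (Or.inr (Or.inr (Or.inl h)))) ⟨by rw [zx]; ring, by rw [zy]; ring⟩
    · rw [r4] at zi; rw [r0] at zj
      have zx : G4 = 0 := by linarith
      have zy : G0 = 0 := by linarith
      exact (fun h => Or.inr (Or.inr (Or.inr (Or.inr h)))) ⟨by rw [zx]; ring, by rw [zy]; ring⟩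
    · rw [r0] at zi; rw [r4] at zj
      have zx : G4 = 0 := by linarith
      have zy : G0 = 0 := by linarith
      exact (fun h => Or.inr (Or.inr (Or.inr (Or.inr h)))) ⟨by rw [zx]; ring, by rw [zy]; ring⟩

end Pool.Agent.H4.Split
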