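import Pool.Agent.H4.Split.Small
import Pool.Agent.H4.Split.Dim
import Pool.Agent.H85.Fold2.Defs

/-!
# Project FOLD, vertex splits: the vector which separates the two sides
-/

set_option autoImplicit false

open Finset

namespace Pool.Agent.H4.Split

open Pool.Agent.H85.Fold2 Pool.Agent.H85.Fold4

namespace SignAux

/-- the inner product of `ℝ^{n,m}` as a bilinear form -/
noncomputable def ipB (n m : ℕ) : LinearMap.BilinForm ℝ ((Fin n → ℝ) × (Fin m → ℝ)) :=
  LinearMap.mk₂ ℝ ip
    (fun y y' z => by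
      unfold ip
      rw [Prod.fst_add, Prod.snd_add, add_dotProduct, add_dotProduct]
      ring)
    (fun c y z => by
      unfold ip
      rw [Prod.smul_fst, Prod.smul_snd, smul_dotProduct, smul_dotProduct, smul_eq_mul, smul_eq_mul,
        smul_eq_mul]
      ring)
    (fun y z z' => by
      unfold ip
      rw [Prod.fst_add, Prod.snd_add, dotProduct_add, dotProduct_add]
      ring)
    (fun c y z => by
      unfold ip
      rw [Prod.smul_fst, Prod.smul_snd, dotProduct_smul, dotProduct_smul, smul_eq_mul, smul_eq_mul,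
        smul_eq_mul]
      ring)

theorem ipB_apply {n m : ℕ} (y z : (Fin n → ℝ) × (Fin m → ℝ)) : ipB n m y z = ip y z := rfl

theorem ipB_comm {n m : ℕ} (y z : (Fin n → ℝ) × (Fin m → ℝ)) : ipB n m y z = ipB n m z y := by
  rw [ipB_apply, ipB_apply]
  unfold ip
  rw [dotProduct_comm y.1, dotProduct_comm y.2]

section

variable {V : Type} [DecidableEq V] [Fintype V] {n m : ℕ}

/-- linear combinations of the vectors `(p v, a v)` -/
noncomputable def E (p : V → Fin n → ℝ) (a : V → Fin m → ℝ) :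
    (V → ℝ) →ₗ[ℝ] (Fin n → ℝ) × (Fin m → ℝ) :=
  Fintype.linearCombination ℝ (fun v => (p v, a v))

/-- the form on the linear combinations -/
noncomputable def F (p : V → Fin n → ℝ) (a : V → Fin m → ℝ) : LinearMap.BilinForm ℝ (V → ℝ) :=
  (ipB n m).compl₁₂ (E p a) (E p a)

/-- the basis vectors -/
def dl (v : V) : V → ℝ := Pi.single v 1

omit [Fintype V] in
theorem dl_ne {u v : V} (h : v ≠ u) : dl u v = 0 := by
  unfold dl
  exact Pi.single_eq_of_ne h 1

omit [Fintype V] in
theorem dl_eq (u : V) : dl u u = 1 := by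
  unfold dl
  exact Pi.single_eq_same u 1

omit [DecidableEq V] in
theorem F_apply (p : V → Fin n → ℝ) (a : V → Fin m → ℝ) (g h : V → ℝ) :
    F p a g h = ip (E p a g) (E p a h) := rfl

omit [DecidableEq V] in
theorem F_comm (p : V → Fin n → ℝ) (a : V → Fin m → ℝ) (g h : V → ℝ) :
    F p a g h = F p a h g := ipB_comm _ _

omit [DecidableEq V] in
theorem F_quad (p : V → Fin n → ℝ) (a : V → Fin m → ℝ) (d z : V → ℝ)
    (h : F p a z (d - z) = 0) : F p a (d - z) (d - z) = F p a d d - F p a z z := by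
  have h1 : F p a z (d - z) = F p a z d - F p a z z := map_sub _ _ _
  have h2 : F p a (d - z) (d - z) = F p a d (d - z) - F p a z (d - z) := by
    rw [map_sub (F p a) d z, LinearMap.sub_apply]
  have h3 : F p a d (d - z) = F p a d d - F p a d z := map_sub _ _ _
  have h4 := F_comm p a d z
  linarith

theorem E_dl (p : V → Fin n → ℝ) (a : V → Fin m → ℝ) (v : V) : E p a (dl v) = (p v, a v) := by
  unfold E dl
  rw [Fintype.linearCombination_apply_single, one_smul]

theorem F_dl (p : V → Fin n → ℝ) (a : V → Fin m → ℝ) (u v : V) :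
    F p a (dl u) (dl v) = p u ⬝ᵥ p v - a u ⬝ᵥ a v := by
  rw [F_apply, E_dl, E_dl]
  rfl

omit [DecidableEq V] in
theorem E_inj {p : V → Fin n → ℝ} {a : V → Fin m → ℝ} (ha : LinearIndependent ℝ a) {g : V → ℝ}
    (h : E p a g = 0) : g = 0 := by
  have h1 : (E p a g).2 = 0 := by rw [h]; rfl
  unfold E at h1
  rw [Fintype.linearCombination_apply, Prod.snd_sum] at h1
  simp only [Prod.smul_snd] at h1
  funext v
  exact Fintype.linearIndependent_iff.mp ha g h1 v

theorem key {G : SimpleGraph V} {k : ℕ}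
    {p : V → Fin (k + 2) → ℝ} {a : V → Fin m → ℝ} (hf : IsFoldR G p a)
    (ha : LinearIndependent ℝ a) (x : V) (ρ : Finset V) (hρx : ∀ c ∈ ρ, G.Adj x c)
    (hρc : G.IsClique (ρ : Set V)) (hρk : ρ.card = k) (g h : V → ℝ)
    (hgh : F p a g h = 0) (hg : 0 ≤ F p a g g) (hh : 0 ≤ F p a h h)
    (hgρ : ∀ c ∈ ρ, F p a g (dl c) = 0) (hhρ : ∀ c ∈ ρ, F p a h (dl c) = 0)
    (hgx : F p a g (dl x) = 0) (hhx : F p a h (dl x) = 0) :
    ∃ s t : ℝ, (s ≠ 0 ∨ t ≠ 0) ∧ (∀ v, v ≠ x → v ∉ ρ → s * g v + t * h v = 0) ∧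
      (0 < F p a g g → s = 0) ∧ (0 < F p a h h → t = 0) := by
  classical
  set q : Option (Option (Option {c // c ∈ ρ})) → V → ℝ := fun i => match i with
    | none => g
    | some none => h
    | some (some none) => dl x
    | some (some (some c)) => dl c.1 with hq
  have hxρ : x ∉ ρ := fun hx => G.loopless.irrefl x (hρx x hx)
  have hcard : k + 2 < Fintype.card (Option (Option (Option {c // c ∈ ρ}))) := by
    rw [Fintype.card_option, Fintype.card_option, Fintype.card_option, Fintype.card_coe, hρk]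
    omega
  have hxx : F p a (dl x) (dl x) = 0 := by
    rw [F_dl, hf.zero x x (Or.inl rfl), sub_self]
  have hcx : ∀ c ∈ ρ, F p a (dl c) (dl x) = 0 := by
    intro c hc
    rw [F_dl, hf.zero c x (Or.inr (hρx c hc).symm), sub_self]
  have hcc : ∀ c ∈ ρ, ∀ d ∈ ρ, F p a (dl c) (dl d) = 0 := by
    intro c hc d hd
    rw [F_dl]
    by_cases hcd : c = d
    · rw [hf.zero c d (Or.inl hcd), sub_self]
    · rw [hf.zero c d (Or.inr (hρc hc hd hcd)), sub_self]
  have horth : ∀ i j, i ≠ j → ip (E p a (q i)) (E p a (q j)) = 0 := by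
    intro i j hij
    rw [← F_apply]
    rcases i with _ | _ | _ | ⟨c, hc⟩ <;> rcases j with _ | _ | _ | ⟨d, hd⟩ <;>
      simp only [hq]
    · exact absurd rfl hij
    · exact hgh
    · exact hgx
    · exact hgρ d hd
    · rw [F_comm]; exact hgh
    · exact absurd rfl hij
    · exact hhx
    · exact hhρ d hd
    · rw [F_comm]; exact hgx
    · rw [F_comm]; exact hhx
    · exact absurd rfl hij
    · rw [F_comm]; exact hcx d hd
    · rw [F_comm]; exact hgρ c hc
    · rw [F_comm]; exact hhρ c hc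
    · exact hcx c hc
    · exact hcc c hc d hd
  have hpos : ∀ i, 0 ≤ ip (E p a (q i)) (E p a (q i)) := by
    intro i
    rw [← F_apply]
    rcases i with _ | _ | _ | ⟨c, hc⟩ <;> simp only [hq]
    · exact hg
    · exact hh
    · rw [hxx]
    · rw [hcc c hc c hc]
  obtain ⟨c, hc0, hsum, hcpos⟩ := dim_le hcard (fun i => E p a (q i)) horth hpos
  have hE : ∑ i, c i • q i = 0 := by
    apply E_inj (p := p) ha
    rw [map_sum]
    simp only [map_smul]
    exact hsum
  have hev : ∀ v, c none * g v + c (some none) * h v + c (some (some none)) * dl x v +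
      ∑ r : {c // c ∈ ρ}, c (some (some (some r))) * dl r.1 v = 0 := by
    intro v
    have h1 := congrFun hE v
    rw [Fintype.sum_option, Fintype.sum_option, Fintype.sum_option] at h1
    simp only [Pi.add_apply, Pi.smul_apply, smul_eq_mul, Finset.sum_apply, Pi.zero_apply, hq] at h1
    linarith
  refine ⟨c none, c (some none), ?_, ?_, ?_, ?_⟩
  · by_contra hcon
    push Not at hcon
    obtain ⟨h1, h2⟩ := hcon
    apply hc0
    funext i
    rw [Pi.zero_apply]
    rcases i with _ | _ | _ | ⟨r, hr⟩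
    · exact h1
    · exact h2
    · have h3 := hev x
      rw [h1, h2] at h3
      have h4 : ∑ r : {c // c ∈ ρ}, c (some (some (some r))) * dl r.1 x = 0 := by
        apply Finset.sum_eq_zero
        intro r _
        rw [dl_ne (fun hx => hxρ (by rw [hx]; exact r.2)), mul_zero]
      rw [h4, dl_eq] at h3
      linarith
    · have h3 := hev r
      rw [h1, h2] at h3
      have h4 : ∑ r' : {c // c ∈ ρ}, c (some (some (some r'))) * dl r'.1 r =
          c (some (some (some ⟨r, hr⟩))) := by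
        rw [Finset.sum_eq_single (⟨r, hr⟩ : {c // c ∈ ρ})]
        · rw [dl_eq, mul_one]
        · intro r' _ hne
          rw [dl_ne (fun hx => hne (Subtype.ext hx.symm)), mul_zero]
        · intro h5
          exact absurd (Finset.mem_univ _) h5
      rw [h4] at h3
      have h5 : dl x r = 0 := dl_ne (fun hx => hxρ (by rw [← hx]; exact hr))
      rw [h5] at h3
      linarith
  · intro v hvx hvρ
    have h3 := hev v
    have h4 : ∑ r : {c // c ∈ ρ}, c (some (some (some r))) * dl r.1 v = 0 := by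
      apply Finset.sum_eq_zero
      intro r _
      rw [dl_ne (fun hx => hvρ (by rw [hx]; exact r.2)), mul_zero]
    have h5 : dl x v = 0 := dl_ne hvx
    rw [h4, h5] at h3
    linarith
  · intro h1
    exact hcpos none h1
  · intro h1
    exact hcpos (some none) h1

/-- extension of a function on `C` by zero -/
noncomputable def ext (C : Set V) [Fintype C] (y : C → ℝ) : V → ℝ := ∑ c, y c • dl c.1

omit [Fintype V] in
theorem ext_of_notMem (C : Set V) [Fintype C] (y : C → ℝ) {v : V} (hv : v ∉ C) :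
    ext C y v = 0 := by
  unfold ext
  rw [Finset.sum_apply]
  apply Finset.sum_eq_zero
  intro c _
  rw [Pi.smul_apply, dl_ne (fun hx => hv (by rw [hx]; exact c.2)), smul_zero]

theorem F_ext (p : V → Fin n → ℝ) (a : V → Fin m → ℝ) (C : Set V) [Fintype C] (y : C → ℝ)
    (h : V → ℝ) : F p a (ext C y) h = ∑ c, y c * F p a (dl c.1) h := by
  unfold ext
  rw [map_sum, LinearMap.sum_apply]
  apply Finset.sum_congr rfl
  intro c _
  rw [map_smul, LinearMap.smul_apply, smul_eq_mul]

end

theorem pos_trans {x y z : ℝ} (h1 : 0 < x * y) (h2 : 0 < y * z) : 0 < x * z := by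
  have hy : y ≠ 0 := by
    rintro rfl
    simp at h1
  have h3 : 0 < y * y := mul_self_pos.mpr hy
  by_contra hcon
  have h4 : x * z * (y * y) ≤ 0 := mul_nonpos_of_nonpos_of_nonneg (not_lt.mp hcon) h3.le
  have h5 : 0 < (x * y) * (y * z) := mul_pos h1 h2
  have h6 : (x * y) * (y * z) = x * z * (y * y) := by ring
  linarith

theorem neg_of_neg {x y : ℝ} (h1 : 0 < x * y) (h2 : x < 0) : y < 0 := by
  by_contra h4
  have := mul_nonpos_of_nonpos_of_nonneg h2.le (not_lt.mp h4)
  linarith

theorem pos_of_pos {x y : ℝ} (h1 : 0 < x * y) (h2 : 0 < x) : 0 < y := by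
  by_contra h4
  have := mul_nonpos_of_nonneg_of_nonpos h2.le (not_lt.mp h4)
  linarith

theorem abs_comb {x y : ℝ} (h : x * y < 0) : |y| * x + |x| * y = 0 := by
  rcases lt_trichotomy x 0 with h4 | h4 | h4
  · have h5 : 0 < y := by
      by_contra h6
      have : 0 ≤ x * y := mul_nonneg_of_nonpos_of_nonpos h4.le (not_lt.mp h6)
      linarith
    rw [abs_of_neg h4, abs_of_pos h5]
    ring
  · rw [h4, zero_mul] at h
    exact absurd h (lt_irrefl _)
  · have h5 : y < 0 := by
      by_contra h6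
      have : 0 ≤ x * y := mul_nonneg h4.le (not_lt.mp h6)
      linarith
    rw [abs_of_pos h4, abs_of_neg h5]
    ring

end SignAux

open SignAux

/-- the separating vector `(s, b)` of `ℝ^{k+2,m}`: it has a positive square, is orthogonal to the
vectors of `x` and of `A ∩ B`, and has positive (negative) products with the vectors of `A \ B`
(of `B \ A`) -/
theorem exists_sep {V : Type} [DecidableEq V] [Fintype V] {G : SimpleGraph V} {k m : ℕ}
    {p : V → Fin (k + 2) → ℝ} {a : V → Fin m → ℝ} (hf : IsFoldR G p a)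
    (ha : LinearIndependent ℝ a) (x : V) (A B : Set V) (hx : A ∪ B = G.neighborSet x)
    (hA : (G.induce (A \ B)).Preconnected) (hB : (G.induce (B \ A)).Preconnected)
    (hC : SmallSphere (G.induce (A ∩ B)) k) (ρ : Finset V) (hρ : (ρ : Set V) ⊆ A ∩ B)
    (hρc : G.IsClique (ρ : Set V)) (hρk : ρ.card = k) (a₀ b₀ : V) (ha₀ : a₀ ∈ A \ B)
    (hb₀ : b₀ ∈ B \ A) (hab : ∀ c ∈ ρ, G.Adj a₀ c ∧ G.Adj b₀ c) :
    ∃ (s : Fin (k + 2) → ℝ) (b : Fin m → ℝ), b ⬝ᵥ b < s ⬝ᵥ s ∧ s ⬝ᵥ p x = b ⬝ᵥ a x ∧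
      (∀ c ∈ A ∩ B, s ⬝ᵥ p c = b ⬝ᵥ a c) ∧ (∀ w ∈ A \ B, b ⬝ᵥ a w < s ⬝ᵥ p w) ∧
      ∀ w ∈ B \ A, s ⬝ᵥ p w < b ⬝ᵥ a w := by
  classical
  -- basic facts
  have hadj : ∀ v, v ∈ A ∪ B → G.Adj x v := fun v hv => by
    rw [hx] at hv
    exact hv
  have hxne : ∀ v, v ∈ A ∪ B → v ≠ x := fun v hv h => G.loopless.irrefl x (by
    have := hadj v hv
    rwa [h] at this)
  have hρx : ∀ c ∈ ρ, G.Adj x c := fun c hc => hadj c (Or.inl (hρ hc).1)
  have Tself : ∀ v, F p a (dl v) (dl v) = 0 := fun v => by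
    rw [F_dl, hf.zero v v (Or.inl rfl), sub_self]
  have Tadj : ∀ u v, G.Adj u v → F p a (dl u) (dl v) = 0 := fun u v h => by
    rw [F_dl, hf.zero u v (Or.inr h), sub_self]
  have Tneg : ∀ u v, u ≠ v → ¬ G.Adj u v → F p a (dl u) (dl v) < 0 := fun u v h1 h2 => by
    rw [F_dl]
    linarith [hf.neg u v h1 h2]
  have Tle : ∀ u v, F p a (dl u) (dl v) ≤ 0 := fun u v => by
    by_cases h1 : u = v
    · rw [h1, Tself]
    · by_cases h2 : G.Adj u v
      · rw [Tadj u v h2]
      · exact (Tneg u v h1 h2).le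
  set C : Set V := A ∩ B with hCdef
  have hCx : ∀ c ∈ C, G.Adj x c := fun c hc => hadj c (Or.inl hc.1)
  have hdl_ne : ∀ u v : V, v ≠ u → dl u v = 0 := fun u v h => dl_ne h
  have hdl_eq : ∀ u : V, dl u u = 1 := fun u => dl_eq u
  -- the form on C
  have hNF : NegForm (G.induce C) (fun u v : C => F p a (dl u.1) (dl v.1)) := by
    refine ⟨fun u v => F_comm _ _ _ _, fun u v h => ?_, fun u v h1 h2 => ?_⟩
    · rcases h with h | h
      · rw [h]
        exact Tself _
      · exact Tadj _ _ h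
    · exact Tneg _ _ (fun h => h1 (Subtype.ext h)) h2
  have hN : Nice (G.induce C) k (fun u v : C => F p a (dl u.1) (dl v.1)) :=
    SmallSphere.nice hC _ hNF
  -- for every h there is z in span(C) with the same products with C
  have hsolve : ∀ h : V → ℝ, ∃ y : C → ℝ, ∀ c : C,
      F p a (ext C y) (dl c.1) = F p a h (dl c.1) := by
    intro h
    obtain ⟨y, hy⟩ := hN.solve (fun c => F p a h (dl c.1))
    refine ⟨y, fun c => ?_⟩
    rw [F_ext, ← hy c]
    apply Finset.sum_congr rfl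
    intro v _
    rw [F_comm p a (dl v.1) (dl c.1)]
    ring
  have hextx : ∀ y : C → ℝ, F p a (ext C y) (dl x) = 0 := by
    intro y
    rw [F_ext]
    apply Finset.sum_eq_zero
    intro c _
    rw [Tadj _ _ (hCx c.1 c.2).symm, mul_zero]
  have hortho : ∀ (y : C → ℝ) (h : V → ℝ), (∀ c : C, F p a h (dl c.1) = 0) →
      F p a (ext C y) h = 0 := by
    intro y h hh
    rw [F_ext]
    apply Finset.sum_eq_zero
    intro c _
    rw [F_comm, hh c, mul_zero]
  have hsumT : ∀ (y : C → ℝ) (u : C), ∑ v : C, F p a (dl u.1) (dl v.1) * y v =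
      F p a (ext C y) (dl u.1) := by
    intro y u
    rw [F_ext]
    apply Finset.sum_congr rfl
    intro v _
    rw [F_comm p a (dl u.1) (dl v.1)]
    ring
  have hquad : ∀ y : C → ℝ, ∑ u : C, ∑ v : C, y u * y v * F p a (dl u.1) (dl v.1) =
      F p a (ext C y) (ext C y) := by
    intro y
    rw [F_ext]
    apply Finset.sum_congr rfl
    intro u _
    rw [F_comm p a (dl u.1) (ext C y), F_ext, Finset.mul_sum]
    apply Finset.sum_congr rfl
    intro v _
    rw [F_comm p a (dl v.1) (dl u.1)]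
    ring
  have hab' : a₀ ≠ b₀ := fun h => ha₀.2 (h ▸ hb₀.1)
  have haρ : a₀ ∉ ρ := fun h => ha₀.2 (hρ h).2
  have hbρ : b₀ ∉ ρ := fun h => hb₀.2 (hρ h).1
  have hax : a₀ ≠ x := hxne a₀ (Or.inl ha₀.1)
  have hbx : b₀ ≠ x := hxne b₀ (Or.inr hb₀.1)
  have haxa : G.Adj a₀ x := (hadj a₀ (Or.inl ha₀.1)).symm
  have hbxa : G.Adj b₀ x := (hadj b₀ (Or.inr hb₀.1)).symm
  -- step 0
  have h0 : ¬ G.Adj a₀ b₀ := by
    intro hadj0
    obtain ⟨s, t, hst, hv, -, -⟩ := key hf ha x ρ hρx hρc hρk (dl a₀) (dl b₀)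
      (Tadj _ _ hadj0) (Tself _).ge (Tself _).ge
      (fun c hc => Tadj _ _ (hab c hc).1) (fun c hc => Tadj _ _ (hab c hc).2)
      (Tadj _ _ haxa) (Tadj _ _ hbxa)
    have h1 := hv a₀ hax haρ
    have h2 := hv b₀ hbx hbρ
    rw [hdl_eq, hdl_ne b₀ a₀ hab'] at h1
    rw [hdl_eq, hdl_ne a₀ b₀ hab'.symm] at h2
    rcases hst with h3 | h3
    · apply h3
      linarith
    · apply h3
      linarith
  have hT0 : F p a (dl a₀) (dl b₀) < 0 := Tneg _ _ hab' h0
  -- step 1
  obtain ⟨yz, hyz⟩ := hsolve (dl a₀ - dl b₀)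
  set gy : V → ℝ := dl a₀ - dl b₀ - ext C yz with hgy
  have hyc : ∀ c : C, F p a gy (dl c.1) = 0 := by
    intro c
    rw [hgy, map_sub, LinearMap.sub_apply, ← hyz c, sub_self]
  have hyx : F p a gy (dl x) = 0 := by
    rw [hgy, map_sub, map_sub, LinearMap.sub_apply, LinearMap.sub_apply, Tadj _ _ haxa,
      Tadj _ _ hbxa, hextx]
    ring
  have hyy : 0 < F p a gy gy := by
    have h2 : F p a gy gy = F p a (dl a₀ - dl b₀) (dl a₀ - dl b₀) -
        F p a (ext C yz) (ext C yz) := F_quad p a _ _ (hortho yz gy hyc)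
    have h5 : F p a (ext C yz) (ext C yz) ≤ 0 := by
      rw [← hquad]
      set ρC : Finset C := Finset.univ.filter (fun c : C => c.1 ∈ ρ) with hρC
      apply hN.nonpos ρC yz
      · intro c hc d hd hcd
        have hc' : c.1 ∈ ρ := by
          have := Finset.mem_coe.mp hc
          rw [hρC, Finset.mem_filter] at this
          exact this.2
        have hd' : d.1 ∈ ρ := by
          have := Finset.mem_coe.mp hd
          rw [hρC, Finset.mem_filter] at this
          exact this.2
        exact hρc hc' hd' (fun h => hcd (Subtype.ext h))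
      · rw [← hρk]
        apply Finset.card_bij (fun c _ => c.1)
        · intro c hc
          rw [hρC, Finset.mem_filter] at hc
          exact hc.2
        · intro c _ d _ h
          exact Subtype.ext h
        · intro v hv
          refine ⟨⟨v, hρ hv⟩, ?_, rfl⟩
          rw [hρC, Finset.mem_filter]
          exact ⟨Finset.mem_univ _, hv⟩
      · intro u hu
        rw [hρC, Finset.mem_filter] at hu
        rw [hsumT, hyz u, map_sub, LinearMap.sub_apply, Tadj _ _ (hab u.1 hu.2).1,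
          Tadj _ _ (hab u.1 hu.2).2, sub_self]
    have h6 : F p a (dl a₀ - dl b₀) (dl a₀ - dl b₀) = -2 * F p a (dl a₀) (dl b₀) := by
      rw [map_sub (F p a) (dl a₀) (dl b₀), LinearMap.sub_apply, map_sub, map_sub, Tself, Tself,
        F_comm p a (dl b₀) (dl a₀)]
      ring
    rw [h2, h6]
    linarith
  have hyρ : ∀ c ∈ ρ, F p a gy (dl c) = 0 := fun c hc => hyc ⟨c, hρ hc⟩
  -- step 2
  have hstep2 : ∀ w w', w ∈ (A ∪ B) \ C → w' ∈ (A ∪ B) \ C → (w = w' ∨ G.Adj w w') →
      ∀ α β : ℝ, 0 ≤ α → 0 ≤ β → 0 < α + β →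
      α * F p a gy (dl w) + β * F p a gy (dl w') ≠ 0 := by
    intro w w' hw hw' hww α β hα hβ hαβ hzero
    set u : V → ℝ := α • dl w + β • dl w' with hu
    obtain ⟨yu, hyu⟩ := hsolve u
    set ut : V → ℝ := u - ext C yu with hut
    have hutc : ∀ c : C, F p a ut (dl c.1) = 0 := by
      intro c
      rw [hut, map_sub, LinearMap.sub_apply, ← hyu c, sub_self]
    have hux : F p a u (dl x) = 0 := by
      rw [hu, map_add, map_smul, map_smul, LinearMap.add_apply, LinearMap.smul_apply,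
        LinearMap.smul_apply, Tadj _ _ (hadj w hw.1).symm, Tadj _ _ (hadj w' hw'.1).symm]
      simp
    have hutx : F p a ut (dl x) = 0 := by
      rw [hut, map_sub, LinearMap.sub_apply, hux, hextx, sub_zero]
    have huy : F p a gy u = 0 := by
      rw [hu, map_add, map_smul, map_smul, smul_eq_mul, smul_eq_mul]
      exact hzero
    have huty : F p a gy ut = 0 := by
      rw [hut, map_sub, huy, F_comm p a gy (ext C yu), hortho yu gy hyc, sub_zero]
    have hww0 : F p a (dl w) (dl w') = 0 := by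
      rcases hww with h | h
      · rw [h]; exact Tself _
      · exact Tadj _ _ h
    have huu : F p a u u = 0 := by
      rw [hu]
      simp only [map_add, map_smul, LinearMap.add_apply, LinearMap.smul_apply, smul_eq_mul]
      rw [Tself, Tself, F_comm p a (dl w') (dl w), hww0]
      ring
    have hzz : F p a (ext C yu) (ext C yu) ≤ 0 := by
      rw [← hquad]
      apply hN.cop yu
      intro c
      rw [hsumT, hyu c, hu, map_add, map_smul, map_smul, LinearMap.add_apply, LinearMap.smul_apply,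
        LinearMap.smul_apply, smul_eq_mul, smul_eq_mul]
      have h1 := mul_nonpos_of_nonneg_of_nonpos hα (Tle w c.1)
      have h2 := mul_nonpos_of_nonneg_of_nonpos hβ (Tle w' c.1)
      linarith
    have hutut : 0 ≤ F p a ut ut := by
      have h2 : F p a ut ut = F p a u u - F p a (ext C yu) (ext C yu) :=
        F_quad p a _ _ (hortho yu ut hutc)
      rw [h2, huu]
      linarith
    obtain ⟨s, t, hst, hv, hs, -⟩ := key hf ha x ρ hρx hρc hρk gy ut huty hyy.le hutut
      hyρ (fun c hc => hutc ⟨c, hρ hc⟩) hyx hutx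
    have hs0 : s = 0 := hs hyy
    have ht0 : t ≠ 0 := by
      rcases hst with h | h
      · exact absurd hs0 h
      · exact h
    have hwρ : ∀ v, v ∈ (A ∪ B) \ C → v ∉ ρ := fun v hv h => hv.2 (hρ h)
    have hval : ∀ v, v ∈ (A ∪ B) \ C → u v = 0 := by
      intro v hv'
      have h1 := hv v (hxne v hv'.1) (hwρ v hv')
      rw [hs0, zero_mul, zero_add] at h1
      rcases mul_eq_zero.mp h1 with h2 | h2
      · exact absurd h2 ht0
      · rw [hut, Pi.sub_apply, ext_of_notMem C yu hv'.2, sub_zero] at h2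
        exact h2
    have hu1 := hval w hw
    have hu2 := hval w' hw'
    rw [hu, Pi.add_apply, Pi.smul_apply, Pi.smul_apply, smul_eq_mul, smul_eq_mul] at hu1 hu2
    by_cases heq : w = w'
    · rw [← heq, hdl_eq] at hu1
      linarith
    · rw [hdl_eq, hdl_ne w' w heq] at hu1
      rw [hdl_eq, hdl_ne w w' (Ne.symm heq)] at hu2
      linarith
  -- step 3
  obtain ⟨φ, hφ⟩ : ∃ φ : V → ℝ, ∀ w, φ w = F p a gy (dl w) := ⟨_, fun _ => rfl⟩
  have hφ0 : ∀ w, w ∈ (A ∪ B) \ C → φ w ≠ 0 := by
    intro w hw h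
    apply hstep2 w w hw hw (Or.inl rfl) 1 0 zero_le_one le_rfl (by norm_num)
    rw [← hφ, h]
    norm_num
  have hφadj : ∀ w w', w ∈ (A ∪ B) \ C → w' ∈ (A ∪ B) \ C → G.Adj w w' → 0 < φ w * φ w' := by
    intro w w' hw hw' hww
    have h1 := hφ0 w hw
    have h2 := hφ0 w' hw'
    by_contra hcon
    have h3 : φ w * φ w' < 0 := lt_of_le_of_ne (not_lt.mp hcon) (mul_ne_zero h1 h2)
    apply hstep2 w w' hw hw' (Or.inr hww) |φ w'| |φ w| (abs_nonneg _) (abs_nonneg _)
      (add_pos (abs_pos.mpr h2) (abs_pos.mpr h1))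
    rw [← hφ, ← hφ]
    exact abs_comb h3
  have hconn : ∀ D : Set V, D ⊆ (A ∪ B) \ C → (G.induce D).Preconnected →
      ∀ w ∈ D, ∀ w' ∈ D, 0 < φ w * φ w' := by
    intro D hD hpre w hw w' hw'
    obtain ⟨q⟩ := hpre ⟨w, hw⟩ ⟨w', hw'⟩
    have key2 : ∀ (u v : D) (_ : (G.induce D).Walk u v), 0 < φ u.1 * φ v.1 := by
      intro u v q
      induction q with
      | nil => exact mul_self_pos.mpr (hφ0 _ (hD (Subtype.mem _)))
      | cons h _ ih =>
        exact pos_trans (hφadj _ _ (hD (Subtype.mem _)) (hD (Subtype.mem _)) h) ih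
    exact key2 _ _ q
  have hDA : A \ B ⊆ (A ∪ B) \ C := fun v hv => ⟨Or.inl hv.1, fun h => hv.2 h.2⟩
  have hDB : B \ A ⊆ (A ∪ B) \ C := fun v hv => ⟨Or.inr hv.1, fun h => hv.2 h.1⟩
  have hsA := hconn (A \ B) hDA hA
  have hsB := hconn (B \ A) hDB hB
  -- step 4
  have hopp : φ a₀ * φ b₀ < 0 := by
    have h1 := hφ0 a₀ (hDA ha₀)
    have h2 := hφ0 b₀ (hDB hb₀)
    by_contra hcon
    have h3 : 0 < φ a₀ * φ b₀ := lt_of_le_of_ne (not_lt.mp hcon) (mul_ne_zero h1 h2).symm
    set u : V → ℝ := φ b₀ • dl a₀ - φ a₀ • dl b₀ with hu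
    have hFu : ∀ h : V → ℝ, F p a u h = φ b₀ * F p a (dl a₀) h - φ a₀ * F p a (dl b₀) h := by
      intro h
      rw [hu, map_sub, map_smul, map_smul, LinearMap.sub_apply, LinearMap.smul_apply,
        LinearMap.smul_apply, smul_eq_mul, smul_eq_mul]
    have huy : F p a gy u = 0 := by
      rw [F_comm, hFu, F_comm p a (dl a₀) gy, F_comm p a (dl b₀) gy, ← hφ, ← hφ]
      ring
    have huu : 0 < F p a u u := by
      have h4 : F p a u u = -2 * (φ a₀ * φ b₀) * F p a (dl a₀) (dl b₀) := by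
        rw [hFu, F_comm p a (dl a₀) u, F_comm p a (dl b₀) u, hFu, hFu, Tself, Tself,
          F_comm p a (dl b₀) (dl a₀)]
        ring
      rw [h4]
      have h5 := mul_pos h3 (neg_pos.mpr hT0)
      linarith
    obtain ⟨s, t, hst, -, hs, ht⟩ := key hf ha x ρ hρx hρc hρk gy u huy hyy.le huu.le
      hyρ (fun c hc => by rw [hFu, Tadj _ _ (hab c hc).1, Tadj _ _ (hab c hc).2]; ring) hyx
      (by rw [hFu, Tadj _ _ haxa, Tadj _ _ hbxa]; ring)
    rcases hst with h | h
    · exact h (hs hyy)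
    · exact h (ht huu)
  -- step 5
  have hφE : ∀ w, φ w = (E p a gy).1 ⬝ᵥ p w - (E p a gy).2 ⬝ᵥ a w := by
    intro w
    rw [hφ, F_apply, E_dl]
    rfl
  have hyyE : (0 : ℝ) < (E p a gy).1 ⬝ᵥ (E p a gy).1 - (E p a gy).2 ⬝ᵥ (E p a gy).2 := hyy
  have hφx : φ x = 0 := by rw [hφ, hyx]
  have hφC : ∀ c ∈ C, φ c = 0 := fun c hc => by rw [hφ, hyc ⟨c, hc⟩]
  generalize (E p a gy).1 = s1 at hφE hyyE
  generalize (E p a gy).2 = b1 at hφE hyyE
  rcases lt_or_gt_of_ne (hφ0 a₀ (hDA ha₀)) with hneg | hpos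
  · have h0b : 0 < φ b₀ := by
      by_contra h4
      have := mul_nonneg_of_nonpos_of_nonpos hneg.le (not_lt.mp h4)
      linarith
    refine ⟨-s1, -b1, ?_, ?_, ?_, ?_, ?_⟩
    · rw [neg_dotProduct_neg, neg_dotProduct_neg]
      linarith
    · rw [neg_dotProduct, neg_dotProduct]
      have := hφE x
      linarith
    · intro c hc
      rw [neg_dotProduct, neg_dotProduct]
      have h1 := hφE c
      have h2 := hφC c hc
      linarith
    · intro w hw
      rw [neg_dotProduct, neg_dotProduct]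
      have h1 := hφE w
      have h3 : φ w < 0 := neg_of_neg (hsA a₀ ha₀ w hw) hneg
      linarith
    · intro w hw
      rw [neg_dotProduct, neg_dotProduct]
      have h1 := hφE w
      have h3 : 0 < φ w := pos_of_pos (hsB b₀ hb₀ w hw) h0b
      linarith
  · have h0b : φ b₀ < 0 := by
      by_contra h4
      have := mul_nonneg hpos.le (not_lt.mp h4)
      linarith
    refine ⟨s1, b1, ?_, ?_, ?_, ?_, ?_⟩
    · linarith
    · have := hφE x
      linarith
    · intro c hc
      have h1 := hφE c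
      have h2 := hφC c hc
      linarith
    · intro w hw
      have h1 := hφE w
      have h3 : 0 < φ w := pos_of_pos (hsA a₀ ha₀ w hw) hpos
      linarith
    · intro w hw
      have h1 := hφE w
      have h3 : φ w < 0 := neg_of_neg (hsB b₀ hb₀ w hw) h0b
      linarith

end Pool.Agent.H4.Split
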