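import Pool.Agent.H4.Split.Penta

/-!
# Project FOLD, vertex splits: joins of pairs of points and pentagons
-/

set_option autoImplicit false

open Finset

namespace Pool.Agent.H4.Split

open Pool.Agent.H85.Fold4

theorem NegForm.comap {V W : Type} {G : SimpleGraph V} {H : SimpleGraph W} (φ : G ↪g H)
    {T : W → W → ℝ} (hT : NegForm H T) : NegForm G (fun u v => T (φ u) (φ v)) := by
  refine ⟨fun u v => hT.symm _ _, fun u v h => ?_, fun u v h1 h2 => ?_⟩
  · refine hT.zero _ _ ?_
    rcases h with h | h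
    · exact Or.inl (by rw [h])
    · exact Or.inr (φ.map_rel_iff.2 h)
  · exact hT.neg _ _ (fun h => h1 (φ.injective h)) (fun h => h2 (φ.map_rel_iff.1 h))

theorem Nice.of_iso {V W : Type} [Fintype V] [Fintype W] {G : SimpleGraph V} {H : SimpleGraph W}
    (φ : G ≃g H) {k : ℕ} {T : V → V → ℝ}
    (h : Nice H k (fun u v => T (φ.symm u) (φ.symm v))) : Nice G k T := by
  have hcl : ∀ ρ : Finset V, G.IsClique (ρ : Set V) →
      H.IsClique ((ρ.map φ.toEquiv.toEmbedding : Finset W) : Set W) := by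
    intro ρ hρ x hx y hy hxy
    rw [Finset.mem_coe, Finset.mem_map] at hx hy
    obtain ⟨a, ha, rfl⟩ := hx
    obtain ⟨b, hb, rfl⟩ := hy
    exact φ.map_rel_iff.2 (hρ ha hb (fun hab => hxy (by rw [hab])))
  have hsum : ∀ (y : V → ℝ) (u : V), ∑ w, T u (φ.symm w) * y (φ.symm w) = ∑ v, T u v * y v :=
    fun y u => Equiv.sum_comp φ.symm.toEquiv (fun v => T u v * y v)
  have hsum2 : ∀ y : V → ℝ, ∑ u, ∑ w, y (φ.symm u) * y (φ.symm w) * T (φ.symm u) (φ.symm w)
      = ∑ u, ∑ v, y u * y v * T u v := by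
    intro y
    rw [← Equiv.sum_comp φ.symm.toEquiv (fun u => ∑ v, y u * y v * T u v)]
    refine Finset.sum_congr rfl fun u _ => ?_
    exact Equiv.sum_comp φ.symm.toEquiv (fun v => y (φ.symm u) * y v * T (φ.symm u) v)
  refine ⟨fun ρ hρ => ?_, fun g => ?_, fun y hy => ?_, fun ρ y hρ hc hy => ?_⟩
  · have := h.card_le _ (hcl ρ hρ)
    rwa [Finset.card_map] at this
  · obtain ⟨y, hy⟩ := h.solve (fun w => g (φ.symm w))
    refine ⟨fun v => y (φ v), fun u => ?_⟩
    have h1 := hy (φ u)
    rw [← hsum]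
    simpa using h1
  · have h1 := h.cop (fun w => y (φ.symm w)) (fun u => ?_)
    · rw [hsum2] at h1
      exact h1
    · rw [hsum]
      exact hy _
  · have h1 := h.nonpos (ρ.map φ.toEquiv.toEmbedding) (fun w => y (φ.symm w)) (hcl ρ hρ)
      (by rw [Finset.card_map, hc]) (fun u hu => ?_)
    · rw [hsum2] at h1
      exact h1
    · rw [hsum]
      rw [Finset.mem_map] at hu
      obtain ⟨a, ha, rfl⟩ := hu
      have : φ.symm (φ.toEquiv.toEmbedding a) = a := φ.symm_apply_apply a
      rw [this]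
      exact hy a ha

theorem Nice.join {V W : Type} [Fintype V] [Fintype W] [Fintype (V ⊕ W)] {G : SimpleGraph V}
    {H : SimpleGraph W} {a b : ℕ} {T : V ⊕ W → V ⊕ W → ℝ} (hT : NegForm (joinG G H) T)
    (h1 : Nice G a (fun u v => T (.inl u) (.inl v)))
    (h2 : Nice H b (fun u v => T (.inr u) (.inr v))) : Nice (joinG G H) (a + b) T := by
  classical
  rename_i f1 f2 f3
  obtain rfl : f3 = instFintypeSum V W := Subsingleton.elim _ _
  have hlr : ∀ u v, T (.inl u) (.inr v) = 0 := fun u v => hT.zero _ _ (Or.inr trivial)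
  have hrl : ∀ u v, T (.inr u) (.inl v) = 0 := fun u v => hT.zero _ _ (Or.inr trivial)
  have hl : ∀ (y : V ⊕ W → ℝ) (u : V), ∑ v, T (.inl u) v * y v
      = ∑ v, T (.inl u) (.inl v) * y (.inl v) := by
    intro y u
    rw [Fintype.sum_sum_type]
    simp [hlr]
  have hr : ∀ (y : V ⊕ W → ℝ) (u : W), ∑ v, T (.inr u) v * y v
      = ∑ v, T (.inr u) (.inr v) * y (.inr v) := by
    intro y u
    rw [Fintype.sum_sum_type]
    simp [hrl]
  have hq : ∀ y : V ⊕ W → ℝ, ∑ u, ∑ v, y u * y v * T u v
      = (∑ u, ∑ v, y (.inl u) * y (.inl v) * T (.inl u) (.inl v))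
        + ∑ u, ∑ v, y (.inr u) * y (.inr v) * T (.inr u) (.inr v) := by
    intro y
    rw [Fintype.sum_sum_type]
    simp only [Fintype.sum_sum_type, hlr, hrl, mul_zero, Finset.sum_const_zero, add_zero, zero_add]
  have hcl : ∀ ρ : Finset (V ⊕ W), (joinG G H).IsClique (ρ : Set (V ⊕ W)) →
      G.IsClique (ρ.toLeft : Set V) ∧ H.IsClique (ρ.toRight : Set W) := by
    intro ρ hρ
    constructor
    · intro x hx y hy hxy
      rw [Finset.mem_coe, Finset.mem_toLeft] at hx hy
      exact hρ hx hy (fun h => hxy (Sum.inl_injective h))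
    · intro x hx y hy hxy
      rw [Finset.mem_coe, Finset.mem_toRight] at hx hy
      exact hρ hx hy (fun h => hxy (Sum.inr_injective h))
  refine ⟨fun ρ hρ => ?_, fun g => ?_, fun y hy => ?_, fun ρ y hρ hc hy => ?_⟩
  · have h3 := h1.card_le _ (hcl ρ hρ).1
    have h4 := h2.card_le _ (hcl ρ hρ).2
    rw [← Finset.card_toLeft_add_card_toRight]
    exact add_le_add h3 h4
  · obtain ⟨y1, hy1⟩ := h1.solve (fun v => g (.inl v))
    obtain ⟨y2, hy2⟩ := h2.solve (fun v => g (.inr v))
    refine ⟨Sum.elim y1 y2, fun u => ?_⟩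
    rcases u with u | u
    · rw [hl]
      exact hy1 u
    · rw [hr]
      exact hy2 u
  · rw [hq]
    refine add_nonpos ?_ ?_
    · refine h1.cop (fun v => y (.inl v)) fun u => ?_
      have := hy (.inl u)
      rwa [hl] at this
    · refine h2.cop (fun v => y (.inr v)) fun u => ?_
      have := hy (.inr u)
      rwa [hr] at this
  · have h3 := h1.card_le _ (hcl ρ hρ).1
    have h4 := h2.card_le _ (hcl ρ hρ).2
    rw [← Finset.card_toLeft_add_card_toRight] at hc
    rw [hq]
    refine add_nonpos ?_ ?_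
    · refine h1.nonpos ρ.toLeft (fun v => y (.inl v)) (hcl ρ hρ).1 (by omega) fun u hu => ?_
      have := hy (.inl u) (Finset.mem_toLeft.1 hu)
      rwa [hl] at this
    · refine h2.nonpos ρ.toRight (fun v => y (.inr v)) (hcl ρ hρ).2 (by omega) fun u hu => ?_
      have := hy (.inr u) (Finset.mem_toRight.1 hu)
      rwa [hr] at this

private def inlEmb {V W : Type} (G : SimpleGraph V) (H : SimpleGraph W) : G ↪g joinG G H where
  toFun := Sum.inl
  inj' := Sum.inl_injective
  map_rel_iff' := Iff.rfl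

private def inrEmb {V W : Type} (G : SimpleGraph V) (H : SimpleGraph W) : H ↪g joinG G H where
  toFun := Sum.inr
  inj' := Sum.inr_injective
  map_rel_iff' := Iff.rfl

theorem SmallSphere.nice {V : Type} {G : SimpleGraph V} {k : ℕ} (h : SmallSphere G k) :
    ∀ [Fintype V] (T : V → V → ℝ), NegForm G T → Nice G k T := by
  classical
  induction h with
  | @empty V G hV =>
    intro _ T _
    refine ⟨fun ρ _ => ?_, fun g => ⟨g, fun u => hV.elim u⟩, fun y _ => ?_, fun ρ y _ _ _ => ?_⟩
    · rw [Finset.eq_empty_of_isEmpty ρ]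
      exact le_refl 0
    · rw [Finset.univ_eq_empty, Finset.sum_empty]
    · rw [Finset.univ_eq_empty, Finset.sum_empty]
  | pair =>
    intro f T hT
    obtain rfl : f = Fin.fintype 2 := Subsingleton.elim _ _
    exact nice_pair hT
  | pentagon =>
    intro f T hT
    obtain rfl : f = Fin.fintype 5 := Subsingleton.elim _ _
    exact nice_pentagon hT
  | @join V W G H a b _ _ ih1 ih2 =>
    intro f T hT
    have : Finite V := Finite.of_injective (Sum.inl (α := V) (β := W)) Sum.inl_injective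
    have : Finite W := Finite.of_injective (Sum.inr (α := V) (β := W)) Sum.inr_injective
    let _ : Fintype V := Fintype.ofFinite V
    let _ : Fintype W := Fintype.ofFinite W
    exact Nice.join hT (ih1 _ (hT.comap (inlEmb G H))) (ih2 _ (hT.comap (inrEmb G H)))
  | @iso V W G H k φ _ ih =>
    intro f T hT
    have : Finite W := Finite.of_equiv V φ.toEquiv
    let _ : Fintype W := Fintype.ofFinite W
    exact Nice.of_iso φ (ih _ (hT.comap φ.symm.toEmbedding))

end Pool.Agent.H4.Split
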